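import Pool.Agent.Q31.HM.Lin

set_option autoImplicit false

/-! # Variances of block sums of hidden Markov chains -/

open Finset
open scoped RealInnerProductSpace

namespace Pool.Agent.Q31.HM

/-- A stationary Markov chain with `m` states: the matrix `P` of the transition probabilities and the
stationary distribution `p`. -/
structure Chain (m : ℕ) where
  P : Fin m → Fin m → ℝ
  p : Fin m → ℝ
  P_nonneg : ∀ x y, 0 ≤ P x y
  P_sum : ∀ x, ∑ y, P x y = 1
  p_nonneg : ∀ x, 0 ≤ p x
  p_sum : ∑ x, p x = 1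
  stationary : ∀ y, ∑ x, p x * P x y = p y

variable {m : ℕ} (X : Chain m)

/-- the probability of the path `w` -/
def Chain.prob {k : ℕ} (w : Fin (k + 1) → Fin m) : ℝ :=
  X.p (w 0) * ∏ i : Fin k, X.P (w i.castSucc) (w i.succ)

/-- expectations over the paths of length `k + 1` -/
noncomputable def wE (k : ℕ) (F : (Fin (k + 1) → Fin m) → ℝ) : ℝ := ∑ w, X.prob w * F w

/-- the transition operator -/
noncomputable def op (u : Fin m → ℝ) : Fin m → ℝ := fun x => ∑ y, X.P x y * u y

lemma prob_nonneg {k : ℕ} (w : Fin (k + 1) → Fin m) : 0 ≤ X.prob w :=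
  mul_nonneg (X.p_nonneg _) (Finset.prod_nonneg fun _ _ => X.P_nonneg _ _)

lemma prob_snoc {k : ℕ} (w : Fin (k + 1) → Fin m) (y : Fin m) :
    X.prob (Fin.snoc w y : Fin (k + 2) → Fin m) = X.prob w * X.P (w (Fin.last k)) y := by
  unfold Chain.prob
  rw [Fin.prod_univ_castSucc, mul_assoc]
  have h0 : (Fin.snoc w y : Fin (k + 2) → Fin m) 0 = w 0 := by
    have : (0 : Fin (k + 2)) = Fin.castSucc 0 := rfl
    rw [this, Fin.snoc_castSucc]
  rw [h0]
  congr 2
  · refine Finset.prod_congr rfl fun i _ => ?_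
    rw [Fin.succ_castSucc, Fin.snoc_castSucc, Fin.snoc_castSucc]
  · rw [Fin.succ_last, Fin.snoc_last, Fin.snoc_castSucc]

lemma wE_succ (k : ℕ) (F : (Fin (k + 2) → Fin m) → ℝ) :
    wE X (k + 1) F = wE X k fun w => ∑ y, X.P (w (Fin.last k)) y * F (Fin.snoc w y) := by
  unfold wE
  rw [← (Fin.snocEquiv (fun _ : Fin (k + 2) => Fin m)).sum_comp, Fintype.sum_prod_type,
    Finset.sum_comm]
  refine Finset.sum_congr rfl fun w _ => ?_
  rw [Finset.mul_sum]
  refine Finset.sum_congr rfl fun y _ => ?_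
  have : (Fin.snocEquiv (fun _ : Fin (k + 2) => Fin m)) (y, w) = Fin.snoc w y := rfl
  rw [this, prob_snoc]
  ring

lemma wE_zero (F : (Fin 1 → Fin m) → ℝ) : wE X 0 F = ∑ x, X.p x * F (fun _ => x) := by
  unfold wE Chain.prob
  rw [← (Equiv.funUnique (Fin 1) (Fin m)).symm.sum_comp]
  refine Finset.sum_congr rfl fun x _ => ?_
  simp only [Finset.univ_eq_empty, Finset.prod_empty, mul_one]
  rfl

lemma wE_add (k : ℕ) (F G : (Fin (k + 1) → Fin m) → ℝ) :
    wE X k (fun w => F w + G w) = wE X k F + wE X k G := by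
  unfold wE
  rw [← Finset.sum_add_distrib]
  exact Finset.sum_congr rfl fun _ _ => by ring

lemma wE_smul (k : ℕ) (c : ℝ) (F : (Fin (k + 1) → Fin m) → ℝ) :
    wE X k (fun w => c * F w) = c * wE X k F := by
  unfold wE
  rw [Finset.mul_sum]
  exact Finset.sum_congr rfl fun _ _ => by ring

/-- stationarity -/
lemma wE_last (k : ℕ) (u : Fin m → ℝ) : wE X k (fun w => u (w (Fin.last k))) = ∑ x, X.p x * u x := by
  induction k generalizing u with
  | zero => rw [wE_zero]
  | succ k ih =>
    rw [wE_succ]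
    simp only [Fin.snoc_last]
    rw [ih (fun x => ∑ y, X.P x y * u y)]
    simp_rw [Finset.mul_sum]
    rw [Finset.sum_comm]
    refine Finset.sum_congr rfl fun y _ => ?_
    rw [← X.stationary y, Finset.sum_mul]
    exact Finset.sum_congr rfl fun x _ => by ring

lemma wE_one (k : ℕ) : wE X k (fun _ => 1) = 1 := by
  rw [wE_last X k (fun _ => 1)]
  simp only [mul_one]
  exact X.p_sum

/-- the block sum of `g` over a path -/
def W (g : Fin m → ℝ) {k : ℕ} (w : Fin (k + 1) → Fin m) : ℝ := ∑ i, g (w i)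

lemma W_snoc (g : Fin m → ℝ) {k : ℕ} (w : Fin (k + 1) → Fin m) (y : Fin m) :
    W g (Fin.snoc w y : Fin (k + 2) → Fin m) = W g w + g y := by
  unfold W
  rw [Fin.sum_univ_castSucc]
  simp only [Fin.snoc_castSucc, Fin.snoc_last]

/-- the correlation of the block sum with a function of the last state -/
lemma wE_cross (g u : Fin m → ℝ) (k : ℕ) :
    wE X k (fun w => W g w * u (w (Fin.last k))) =
      ∑ j ∈ range (k + 1), ∑ x, X.p x * (g x * ((op X)^[j] u) x) := by
  induction k generalizing u with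
  | zero =>
    rw [wE_zero, Finset.sum_range_one]
    refine Finset.sum_congr rfl fun x _ => ?_
    unfold W
    simp
  | succ k ih =>
    rw [wE_succ]
    have e : ∀ w : Fin (k + 1) → Fin m, ∑ y, X.P (w (Fin.last k)) y *
        (W g (Fin.snoc w y : Fin (k + 2) → Fin m) *
          u ((Fin.snoc w y : Fin (k + 2) → Fin m) (Fin.last (k + 1)))) =
        W g w * (op X u) (w (Fin.last k)) + (op X (fun y => g y * u y)) (w (Fin.last k)) := by
      intro w
      unfold op
      rw [Finset.mul_sum, ← Finset.sum_add_distrib]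
      refine Finset.sum_congr rfl fun y _ => ?_
      rw [W_snoc, Fin.snoc_last]
      ring
    simp_rw [e]
    rw [wE_add, ih, wE_last X k (op X (fun y => g y * u y)), Finset.sum_range_succ' _ (k + 1)]
    congr 1
    unfold op
    simp_rw [Finset.mul_sum]
    rw [Finset.sum_comm]
    refine Finset.sum_congr rfl fun y _ => ?_
    rw [Function.iterate_zero, id]
    rw [← X.stationary y, Finset.sum_mul]
    exact Finset.sum_congr rfl fun x _ => by ring

/-- recursion for the second moment of the block sums -/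
lemma wE_sq_succ (g : Fin m → ℝ) (k : ℕ) :
    wE X (k + 1) (fun w => W g w ^ 2) = wE X k (fun w => W g w ^ 2) + ∑ x, X.p x * (g x * g x) +
      2 * ∑ j ∈ range (k + 1), ∑ x, X.p x * (g x * ((op X)^[j + 1] g) x) := by
  rw [wE_succ]
  have e : ∀ w : Fin (k + 1) → Fin m, ∑ y, X.P (w (Fin.last k)) y *
      (W g (Fin.snoc w y : Fin (k + 2) → Fin m)) ^ 2 =
      W g w ^ 2 + (2 * (W g w * (op X g) (w (Fin.last k))) +
        (op X (fun y => g y * g y)) (w (Fin.last k))) := by
    intro w
    have h1 : W g w ^ 2 = ∑ y, X.P (w (Fin.last k)) y * W g w ^ 2 := by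
      rw [← Finset.sum_mul, X.P_sum, one_mul]
    conv_rhs => rw [h1]
    unfold op
    rw [Finset.mul_sum, Finset.mul_sum, ← Finset.sum_add_distrib, ← Finset.sum_add_distrib]
    refine Finset.sum_congr rfl fun y _ => ?_
    rw [W_snoc]
    ring
  simp_rw [e]
  rw [wE_add, wE_add, wE_smul, wE_cross, wE_last X k (op X (fun y => g y * g y))]
  have e2 : ∑ x, X.p x * op X (fun y => g y * g y) x = ∑ x, X.p x * (g x * g x) := by
    unfold op
    simp_rw [Finset.mul_sum]
    rw [Finset.sum_comm]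
    refine Finset.sum_congr rfl fun y _ => ?_
    rw [← X.stationary y, Finset.sum_mul]
    exact Finset.sum_congr rfl fun x _ => by ring
  have e3 : ∀ j, (op X)^[j] (op X g) = (op X)^[j + 1] g := fun j => by
    rw [Function.iterate_succ_apply]
  simp_rw [e2, e3]
  ring

/-! ### The Hilbert space -/

/-- functions on the states as vectors -/
noncomputable def tl (u : Fin m → ℝ) : EuclideanSpace ℝ (Fin m) :=
  WithLp.toLp 2 fun x => Real.sqrt (X.p x) * u x

/-- the transition operator on the Hilbert space -/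
noncomputable def PP : EuclideanSpace ℝ (Fin m) →ₗ[ℝ] EuclideanSpace ℝ (Fin m) where
  toFun v := WithLp.toLp 2 fun x => Real.sqrt (X.p x) * ∑ y, X.P x y * (v y / Real.sqrt (X.p y))
  map_add' u v := by
    ext x
    simp only [PiLp.add_apply]
    rw [← mul_add, ← Finset.sum_add_distrib]
    congr 1
    exact Finset.sum_congr rfl fun y _ => by ring
  map_smul' c v := by
    ext x
    simp only [PiLp.smul_apply, smul_eq_mul, RingHom.id_apply]
    rw [mul_left_comm, Finset.mul_sum, Finset.mul_sum, Finset.mul_sum]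
    exact Finset.sum_congr rfl fun y _ => by ring

lemma PP_apply (v : EuclideanSpace ℝ (Fin m)) (x : Fin m) :
    PP X v x = Real.sqrt (X.p x) * ∑ y, X.P x y * (v y / Real.sqrt (X.p y)) := rfl

lemma tl_apply (u : Fin m → ℝ) (x : Fin m) : tl X u x = Real.sqrt (X.p x) * u x := rfl

lemma null_trans {x y : Fin m} (hx : X.p x ≠ 0) (hy : X.p y = 0) : X.P x y = 0 := by
  have h := X.stationary y
  rw [hy] at h
  have h2 := (Finset.sum_eq_zero_iff_of_nonneg
    (fun z _ => mul_nonneg (X.p_nonneg z) (X.P_nonneg z y))).1 h x (Finset.mem_univ _)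
  exact (mul_eq_zero.1 h2).resolve_left hx

lemma PP_tl (u : Fin m → ℝ) : PP X (tl X u) = tl X (op X u) := by
  ext x
  rw [PP_apply, tl_apply]
  rcases eq_or_ne (X.p x) 0 with hx | hx
  · rw [hx, Real.sqrt_zero, zero_mul, zero_mul]
  congr 1
  unfold op
  refine Finset.sum_congr rfl fun y _ => ?_
  rcases eq_or_ne (X.p y) 0 with hy | hy
  · rw [null_trans X hx hy, zero_mul, zero_mul]
  · have h0 : Real.sqrt (X.p y) ≠ 0 := by
      rw [Real.sqrt_ne_zero']
      exact lt_of_le_of_ne (X.p_nonneg y) (Ne.symm hy)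
    rw [tl_apply]
    field_simp

lemma PP_norm (v : EuclideanSpace ℝ (Fin m)) : ‖PP X v‖ ≤ ‖v‖ := by
  apply le_of_sq_le_sq _ (norm_nonneg _)
  rw [EuclideanSpace.norm_sq_eq, EuclideanSpace.norm_sq_eq]
  simp only [Real.norm_eq_abs, sq_abs, PP_apply, mul_pow]
  have h1 : ∀ x, Real.sqrt (X.p x) ^ 2 * (∑ y, X.P x y * (v y / Real.sqrt (X.p y))) ^ 2 ≤
      ∑ y, X.p x * X.P x y * (v y / Real.sqrt (X.p y)) ^ 2 := by
    intro x
    rw [Real.sq_sqrt (X.p_nonneg x)]
    have h2 : (∑ y, X.P x y * (v y / Real.sqrt (X.p y))) ^ 2 ≤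
        ∑ y, X.P x y * (v y / Real.sqrt (X.p y)) ^ 2 := by
      have h3 := Finset.sum_mul_sq_le_sq_mul_sq Finset.univ (fun y => Real.sqrt (X.P x y))
        (fun y => Real.sqrt (X.P x y) * (v y / Real.sqrt (X.p y)))
      simp only [mul_pow, Real.sq_sqrt (X.P_nonneg x _), X.P_sum, one_mul] at h3
      refine le_trans (le_of_eq ?_) h3
      congr 1
      refine Finset.sum_congr rfl fun y _ => ?_
      rw [← mul_assoc, Real.mul_self_sqrt (X.P_nonneg x y)]
    calc X.p x * (∑ y, X.P x y * (v y / Real.sqrt (X.p y))) ^ 2 ≤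
        X.p x * ∑ y, X.P x y * (v y / Real.sqrt (X.p y)) ^ 2 :=
          mul_le_mul_of_nonneg_left h2 (X.p_nonneg x)
      _ = _ := by
          rw [Finset.mul_sum]
          exact Finset.sum_congr rfl fun y _ => by ring
  refine (Finset.sum_le_sum fun x _ => h1 x).trans ?_
  rw [Finset.sum_comm]
  refine Finset.sum_le_sum fun y _ => ?_
  rw [← Finset.sum_mul, X.stationary y]
  rcases eq_or_ne (X.p y) 0 with hy | hy
  · rw [hy, zero_mul]
    exact sq_nonneg _
  · have h0 : 0 < X.p y := lt_of_le_of_ne (X.p_nonneg y) (Ne.symm hy)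
    rw [div_pow, Real.sq_sqrt h0.le, mul_div_cancel₀ _ hy]

lemma PP_iter (u : Fin m → ℝ) (j : ℕ) : (PP X)^[j] (tl X u) = tl X ((op X)^[j] u) := by
  induction j generalizing u with
  | zero => rfl
  | succ j ih => rw [Function.iterate_succ_apply, Function.iterate_succ_apply, PP_tl, ih]

lemma inner_tl (u v : Fin m → ℝ) : ⟪tl X u, tl X v⟫ = ∑ x, X.p x * (u x * v x) := by
  rw [PiLp.inner_apply]
  refine Finset.sum_congr rfl fun x _ => ?_
  rw [tl_apply, tl_apply]
  simp only [RCLike.inner_apply, conj_trivial]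
  have := Real.mul_self_sqrt (X.p_nonneg x)
  calc Real.sqrt (X.p x) * v x * (Real.sqrt (X.p x) * u x) =
        (Real.sqrt (X.p x) * Real.sqrt (X.p x)) * (u x * v x) := by ring
    _ = _ := by rw [this]

/-- the second moment of the block sums -/
theorem wE_sq (g : Fin m → ℝ) (k : ℕ) :
    wE X k (fun w => W g w ^ 2) = vr (PP X) (tl X g) (k + 1) := by
  induction k with
  | zero =>
    rw [wE_zero]
    show _ = vr (PP X) (tl X g) 0 + ⟪tl X g, tl X g⟫ + 2 * ∑ j ∈ range 0, _
    rw [inner_tl]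
    unfold vr W
    simp [sq]
  | succ k ih =>
    rw [wE_sq_succ, ih]
    show _ = vr (PP X) (tl X g) (k + 1) + ⟪tl X g, tl X g⟫ +
      2 * ∑ j ∈ range (k + 1), ⟪tl X g, ((PP X)^[j + 1]) (tl X g)⟫
    simp_rw [PP_iter, inner_tl]

/-- **Dichotomy.** The second moments of the block sums of a function on a stationary Markov chain with
finitely many states are quadratic in the length, up to a bounded error. -/
theorem quad (g : Fin m → ℝ) : ∃ α β B : ℝ, 0 ≤ α ∧ 0 ≤ β ∧ ∀ k : ℕ,
    |wE X k (fun w => W g w ^ 2) - (α * (k + 1 : ℕ) ^ 2 + β * (k + 1 : ℕ))| ≤ B := by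
  obtain ⟨α, β, B, h1, h2, h3⟩ := vr_quad (PP_norm X) (tl X g)
  exact ⟨α, β, B, h1, h2, fun k => by rw [wE_sq]; exact h3 (k + 1)⟩

end Pool.Agent.Q31.HM
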