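import Pool.Agent.Q31.HM.Lim

set_option autoImplicit false

/-! # Processes that are not limit laws of the spacings -/

open Filter Topology Finset MeasureTheory BoundedContinuousFunction

namespace Pool.Agent.Q31.HM

open Pool.Agent.Q173.NL (del)

lemma log_small (C : ℝ) : Tendsto (fun k : ℕ => C * (1 + Real.log (k + 1 : ℕ)) / (k + 1 : ℕ)) atTop
    (𝓝 0) := by
  have h1 : Tendsto (fun x : ℝ => Real.log x / x) atTop (𝓝 0) := by
    simpa using Real.isLittleO_log_id_atTop.tendsto_div_nhds_zero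
  have h2 : Tendsto (fun x : ℝ => 1 / x) atTop (𝓝 0) := by
    simpa using tendsto_inv_atTop_zero (𝕜 := ℝ)
  have h3 := (h2.add h1).const_mul C
  rw [add_zero, mul_zero] at h3
  have h4 : Tendsto (fun k : ℕ => ((k + 1 : ℕ) : ℝ)) atTop atTop :=
    tendsto_natCast_atTop_atTop.comp (tendsto_add_atTop_nat 1)
  refine (h3.comp h4).congr fun k => ?_
  simp only [Function.comp]
  ring

lemma log_big {c : ℝ} (hc : 0 < c) (B : ℝ) : ∃ k : ℕ, B < c * (1 + Real.log (k + 1 : ℕ)) := by
  have h4 : Tendsto (fun k : ℕ => Real.log ((k + 1 : ℕ) : ℝ)) atTop atTop :=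
    Real.tendsto_log_atTop.comp (tendsto_natCast_atTop_atTop.comp (tendsto_add_atTop_nat 1))
  obtain ⟨k, hk⟩ := (h4.eventually_gt_atTop (B / c)).exists
  refine ⟨k, ?_⟩
  rw [div_lt_iff₀ hc] at hk
  linarith

/-- a quadratic function up to a bounded error is not of logarithmic size -/
theorem quad_log {c C α β B : ℝ} (hc : 0 < c) {v : ℕ → ℝ}
    (h1 : ∀ k : ℕ, c * (1 + Real.log (k + 1 : ℕ)) ≤ v k)
    (h2 : ∀ k : ℕ, v k ≤ C * (1 + Real.log (k + 1 : ℕ)))
    (h3 : ∀ k : ℕ, |v k - (α * (k + 1 : ℕ) ^ 2 + β * (k + 1 : ℕ))| ≤ B) : False := by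
  have hv : Tendsto (fun k : ℕ => v k / (k + 1 : ℕ)) atTop (𝓝 0) := by
    refine squeeze_zero (fun k => ?_) (fun k => ?_) (log_small C)
    · have h4 := h1 k
      have h5 : 0 ≤ Real.log ((k + 1 : ℕ) : ℝ) := Real.log_natCast_nonneg _
      have : 0 ≤ v k := le_trans (by positivity) h4
      positivity
    · exact div_le_div_of_nonneg_right (h2 k) (Nat.cast_nonneg _)
  have hB : Tendsto (fun k : ℕ => B / ((k + 1 : ℕ) : ℝ)) atTop (𝓝 0) :=
    (tendsto_natCast_atTop_atTop.comp (tendsto_add_atTop_nat 1)).const_div_atTop B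
  have hd : Tendsto (fun k : ℕ => v k / (k + 1 : ℕ) - (α * (k + 1 : ℕ) + β)) atTop (𝓝 0) := by
    refine squeeze_zero_norm (fun k => ?_) hB
    have hk : (0 : ℝ) < ((k + 1 : ℕ) : ℝ) := by positivity
    have e : v k / (k + 1 : ℕ) - (α * (k + 1 : ℕ) + β) =
        (v k - (α * (k + 1 : ℕ) ^ 2 + β * (k + 1 : ℕ))) / (k + 1 : ℕ) := by
      field_simp
    rw [Real.norm_eq_abs, e, abs_div, abs_of_pos hk]
    exact div_le_div_of_nonneg_right (h3 k) hk.le
  have hq : Tendsto (fun k : ℕ => α * ((k + 1 : ℕ) : ℝ) + β) atTop (𝓝 0) := by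
    have := hv.sub hd
    rw [sub_zero] at this
    exact this.congr fun k => by ring
  have hα : α = 0 := by
    have h4 := (hq.comp (tendsto_add_atTop_nat 1)).sub hq
    rw [sub_zero] at h4
    have h5 : Tendsto (fun _ : ℕ => α) atTop (𝓝 0) := h4.congr fun k => by
      simp only [Function.comp]
      push_cast
      ring
    exact tendsto_nhds_unique tendsto_const_nhds h5
  have hβ : β = 0 := by
    rw [hα] at hq
    have h5 : Tendsto (fun _ : ℕ => β) atTop (𝓝 0) := hq.congr fun k => by ring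
    exact tendsto_nhds_unique tendsto_const_nhds h5
  obtain ⟨k, hk⟩ := log_big hc B
  have h4 := h3 k
  rw [hα, hβ, zero_mul, zero_mul, add_zero, sub_zero] at h4
  have := le_abs_self (v k)
  linarith [h1 k]

variable {l : Filter ℕ} [l.NeBot] {a : ℕ → ℝ}

theorem no_quad (hRH : RiemannHypothesis) (hl : l ≤ atTop) (ha : Near l a del) {ν : ℕ → Measure ℝ}
    (hν : ∀ k, IsProbabilityMeasure (ν k)) (hlaw : Law l a ν) {α β B : ℝ}
    (h : ∀ k : ℕ, |∫ x : ℝ, (x - (k + 1 : ℕ)) ^ 2 ∂ν k - (α * (k + 1 : ℕ) ^ 2 + β * (k + 1 : ℕ))| ≤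
      B) : False := by
  obtain ⟨c, C, hc, hC, h1⟩ := var_lim hRH
  exact quad_log hc (fun k => (h1 l hl a ha ν hν hlaw k).2.1)
    (fun k => (h1 l hl a ha ν hν hlaw k).2.2) h

/-! ### Hidden Markov chains -/

variable {m : ℕ}

/-- the law of the block sums of length `k + 1` of the values `f` of a stationary Markov chain -/
noncomputable def Chain.law (X : Chain m) (f : Fin m → ℝ) (k : ℕ) : Measure ℝ :=
  ∑ w : Fin (k + 1) → Fin m, ENNReal.ofReal (X.prob w) • Measure.dirac (∑ i, f (w i))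

lemma law_integral (X : Chain m) (f : Fin m → ℝ) (k : ℕ) (g : ℝ → ℝ) :
    ∫ x, g x ∂X.law f k = wE X k fun w => g (∑ i, f (w i)) := by
  unfold Chain.law wE
  have hi : ∀ w ∈ (univ : Finset (Fin (k + 1) → Fin m)), Integrable g
      (ENNReal.ofReal (X.prob w) • Measure.dirac (∑ i, f (w i))) := by
    intro w _
    refine Integrable.smul_measure ?_ ENNReal.ofReal_ne_top
    exact integrable_dirac (by simp)
  rw [integral_finsetSum_measure hi]
  refine Finset.sum_congr rfl fun w _ => ?_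
  rw [integral_smul_measure, integral_dirac, ENNReal.toReal_ofReal (prob_nonneg X w), smul_eq_mul]

lemma law_prob (X : Chain m) (f : Fin m → ℝ) (k : ℕ) : IsProbabilityMeasure (X.law f k) := by
  constructor
  unfold Chain.law
  rw [Measure.finsetSum_apply]
  simp only [Measure.smul_apply, measure_univ, smul_eq_mul, mul_one]
  rw [← ENNReal.ofReal_sum_of_nonneg fun w _ => prob_nonneg X w]
  have h := wE_one X k
  unfold wE at h
  simp only [mul_one] at h
  rw [h, ENNReal.ofReal_one]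

theorem no_chain (hRH : RiemannHypothesis) (hl : l ≤ atTop) (ha : Near l a del) (X : Chain m)
    (f : Fin m → ℝ) : ¬ Law l a (X.law f) := by
  intro hlaw
  obtain ⟨α, β, B, -, -, h⟩ := quad X fun x => f x - 1
  refine no_quad hRH hl ha (law_prob X f) hlaw (α := α) (β := β) (B := B) fun k => ?_
  rw [law_integral]
  have e : (fun w : Fin (k + 1) → Fin m => (∑ i, f (w i) - ((k + 1 : ℕ) : ℝ)) ^ 2) =
      fun w => W (fun x => f x - 1) w ^ 2 := by
    funext w
    unfold W
    rw [Finset.sum_sub_distrib, Finset.sum_const, Finset.card_univ, Fintype.card_fin, nsmul_eq_mul,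
      mul_one]
  rw [e]
  exact h k

omit [l.NeBot] in
/-- the frequencies of the values of the block sums determine the law -/
theorem law_of_freq (X : Chain m) (f : Fin m → ℝ) (hl : l ≤ atTop)
    (h : ∀ (k : ℕ) (v : ℝ), Tendsto (fun N => fr N fun n => ∑ j ∈ range (k + 1), a (n + j) = v) l
      (𝓝 (wE X k fun w => if ∑ i, f (w i) = v then 1 else 0))) : Law l a (X.law f) := by
  classical
  intro k φ
  rw [law_integral]
  obtain ⟨V, hV⟩ : ∃ V : Finset ℝ, V = univ.image fun w : Fin (k + 1) → Fin m => ∑ i, f (w i) :=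
    ⟨_, rfl⟩
  have hmem : ∀ w : Fin (k + 1) → Fin m, ∑ i, f (w i) ∈ V := fun w => by
    rw [hV]
    exact Finset.mem_image_of_mem _ (Finset.mem_univ w)
  obtain ⟨b, hb⟩ : ∃ b : ℕ → ℝ, b = fun n => ∑ j ∈ range (k + 1), a (n + j) := ⟨_, rfl⟩
  obtain ⟨p, hp⟩ : ∃ p : ℝ → ℝ, p = fun v => wE X k fun w => if ∑ i, f (w i) = v then 1 else 0 :=
    ⟨_, rfl⟩
  have hfv : ∀ v, Tendsto (fun N => fr N fun n => b n = v) l (𝓝 (p v)) := fun v => by
    rw [hb, hp]
    exact h k v
  have hp1 : ∑ v ∈ V, p v = 1 := by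
    rw [hp]
    unfold wE
    rw [Finset.sum_comm]
    simp_rw [← Finset.mul_sum]
    have : ∀ w : Fin (k + 1) → Fin m, ∑ v ∈ V, (if ∑ i, f (w i) = v then (1 : ℝ) else 0) = 1 := by
      intro w
      rw [Finset.sum_ite_eq, if_pos (hmem w)]
    simp_rw [this]
    exact wE_one X k
  have hpφ : ∑ v ∈ V, p v * φ v = wE X k fun w => φ (∑ i, f (w i)) := by
    rw [hp]
    unfold wE
    simp_rw [Finset.sum_mul]
    rw [Finset.sum_comm]
    refine Finset.sum_congr rfl fun w _ => ?_
    simp_rw [mul_assoc, ← Finset.mul_sum]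
    congr 1
    simp only [ite_mul, one_mul, zero_mul]
    rw [Finset.sum_ite_eq, if_pos (hmem w)]
  -- the averages
  have hfr : ∀ (N : ℕ) (v : ℝ), fr N (fun n => b n = v) =
      (((Icc 1 N).filter fun n => b n = v).card : ℝ) / N := by
    intro N v
    unfold fr
    congr 2
    rw [← Set.ncard_coe_finset]
    congr 1
    ext n
    simp only [Set.mem_ofPred_eq, Finset.coe_filter, Finset.mem_Icc, and_assoc]
  have hmain : ∀ N : ℕ, 0 < N → |avg a k φ N - ∑ v ∈ V, fr N (fun n => b n = v) * φ v| ≤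
      ‖φ‖ * (1 - ∑ v ∈ V, fr N (fun n => b n = v)) := by
    intro N hN
    have hN0 : (0 : ℝ) < N := by exact_mod_cast hN
    have e1 : ∑ v ∈ V, fr N (fun n => b n = v) * φ v =
        (∑ n ∈ Icc 1 N, if b n ∈ V then φ (b n) else 0) / N := by
      simp_rw [hfr, div_mul_eq_mul_div]
      rw [← Finset.sum_div]
      congr 1
      have : ∀ v ∈ V, (((Icc 1 N).filter fun n => b n = v).card : ℝ) * φ v =
          ∑ n ∈ Icc 1 N, if b n = v then φ v else 0 := by
        intro v _
        rw [← Finset.sum_filter, Finset.sum_const, nsmul_eq_mul]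
      rw [Finset.sum_congr rfl this, Finset.sum_comm]
      refine Finset.sum_congr rfl fun n _ => ?_
      rw [Finset.sum_ite_eq]
    have e2 : ∑ v ∈ V, fr N (fun n => b n = v) = (∑ n ∈ Icc 1 N, if b n ∈ V then (1 : ℝ) else 0) / N := by
      simp_rw [hfr]
      rw [← Finset.sum_div]
      congr 1
      have : ∀ v ∈ V, (((Icc 1 N).filter fun n => b n = v).card : ℝ) =
          ∑ n ∈ Icc 1 N, if b n = v then (1 : ℝ) else 0 := by
        intro v _
        rw [← Finset.sum_filter, Finset.sum_const, nsmul_eq_mul, mul_one]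
      rw [Finset.sum_congr rfl this, Finset.sum_comm]
      refine Finset.sum_congr rfl fun n _ => ?_
      rw [Finset.sum_ite_eq]
    have e3 : avg a k φ N = (∑ n ∈ Icc 1 N, φ (b n)) / N := by
      rw [hb]
      rfl
    have e4 : (1 : ℝ) - ∑ v ∈ V, fr N (fun n => b n = v) =
        (∑ n ∈ Icc 1 N, if b n ∈ V then (0 : ℝ) else 1) / N := by
      rw [e2, eq_div_iff hN0.ne', sub_mul, one_mul, div_mul_cancel₀ _ hN0.ne', sub_eq_iff_eq_add,
        ← Finset.sum_add_distrib]
      have : ∀ n ∈ Icc 1 N, ((if b n ∈ V then (0 : ℝ) else 1) + if b n ∈ V then (1 : ℝ) else 0) = 1 := by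
        intro n _
        split_ifs <;> norm_num
      rw [Finset.sum_congr rfl this, Finset.sum_const, Nat.card_Icc, nsmul_eq_mul, mul_one]
      simp
    rw [e1, e3, e4, ← sub_div, ← Finset.sum_sub_distrib, abs_div, abs_of_pos hN0, ← mul_div_assoc]
    apply div_le_div_of_nonneg_right _ hN0.le
    refine (Finset.abs_sum_le_sum_abs _ _).trans ?_
    rw [Finset.mul_sum]
    refine Finset.sum_le_sum fun n _ => ?_
    split_ifs
    · simp
    · rw [sub_zero, mul_one]
      exact φ.norm_coe_le_norm _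
  have h1 : Tendsto (fun N => ∑ v ∈ V, fr N (fun n => b n = v) * φ v) l
      (𝓝 (∑ v ∈ V, p v * φ v)) := tendsto_finsetSum _ fun v _ => (hfv v).mul_const _
  have h2 : Tendsto (fun N => ‖φ‖ * (1 - ∑ v ∈ V, fr N (fun n => b n = v))) l (𝓝 0) := by
    have h3 : Tendsto (fun N => ∑ v ∈ V, fr N (fun n => b n = v)) l (𝓝 (∑ v ∈ V, p v)) :=
      tendsto_finsetSum _ fun v _ => hfv v
    rw [hp1] at h3
    have h4 := (tendsto_const_nhds (x := (1 : ℝ))).sub h3
    rw [sub_self] at h4
    have h5 := h4.const_mul ‖φ‖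
    rw [mul_zero] at h5
    exact h5
  have h3 : Tendsto (fun N => avg a k φ N - ∑ v ∈ V, fr N (fun n => b n = v) * φ v) l (𝓝 0) := by
    refine squeeze_zero_norm' ?_ h2
    filter_upwards [hl (eventually_gt_atTop 0)] with N hN
    rw [Real.norm_eq_abs]
    exact hmain N hN
  have h4 := h3.add h1
  rw [zero_add, hpφ] at h4
  exact h4.congr fun N => by ring

end Pool.Agent.Q31.HM
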