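import Pool.Agent.Q31.HM.Near
import Pool.Agent.Q31.HM.Chain

set_option autoImplicit false

/-! # Limit laws of the block sums of the spacings -/

open Filter Topology Finset MeasureTheory BoundedContinuousFunction

namespace Pool.Agent.Q31.HM

open Pool.Agent.Y743.LR (dl)
open Pool.Agent.Q31.GV (SD Vb)
open Pool.Agent.Q173.NL (del)

/-- the average of `f` over the block sums of length `k + 1` of the sequence `a`, starting at
`n = 1, …, N` -/
noncomputable def avg (a : ℕ → ℝ) (k : ℕ) (f : ℝ → ℝ) (N : ℕ) : ℝ :=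
  (∑ n ∈ Icc 1 N, f (∑ j ∈ range (k + 1), a (n + j))) / N

/-- the block sums of length `k + 1` of `a` have the limit law `ν k` along `l` -/
def Law (l : Filter ℕ) (a : ℕ → ℝ) (ν : ℕ → Measure ℝ) : Prop :=
  ∀ (k : ℕ) (f : ℝ →ᵇ ℝ), Tendsto (avg a k f) l (𝓝 (∫ x, f x ∂ν k))

/-- truncated squares -/
noncomputable def ph (c R : ℝ) (x : ℝ) : ℝ := (min |x - c| R) ^ 2

lemma ph_nonneg (c R x : ℝ) : 0 ≤ ph c R x := sq_nonneg _

lemma ph_le {c R : ℝ} (hR : 0 ≤ R) (x : ℝ) : ph c R x ≤ (x - c) ^ 2 := by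
  unfold ph
  rw [← sq_abs (x - c)]
  exact pow_le_pow_left₀ (le_min (abs_nonneg _) hR) (min_le_left _ _) 2

lemma ph_le' {c R : ℝ} (hR : 0 ≤ R) (x : ℝ) : ph c R x ≤ R ^ 2 := by
  unfold ph
  exact pow_le_pow_left₀ (le_min (abs_nonneg _) hR) (min_le_right _ _) 2

lemma ph_lip {c R : ℝ} (hR : 0 ≤ R) (x y : ℝ) : |ph c R x - ph c R y| ≤ 2 * R * |x - y| := by
  unfold ph
  have h1 : |min |x - c| R - min |y - c| R| ≤ |x - y| := by
    refine (abs_min_sub_min_le_max _ _ _ _).trans ?_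
    rw [sub_self, abs_zero, max_eq_left (abs_nonneg _)]
    refine (abs_abs_sub_abs_le _ _).trans (le_of_eq ?_)
    congr 1
    ring
  have h2 : |min |x - c| R + min |y - c| R| ≤ 2 * R := by
    rw [abs_of_nonneg (add_nonneg (le_min (abs_nonneg _) hR) (le_min (abs_nonneg _) hR))]
    linarith [min_le_right |x - c| R, min_le_right |y - c| R]
  have e : min |x - c| R ^ 2 - min |y - c| R ^ 2 =
      (min |x - c| R + min |y - c| R) * (min |x - c| R - min |y - c| R) := by ring
  rw [e, abs_mul]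
  exact mul_le_mul h2 h1 (abs_nonneg _) (by positivity)

lemma ph_gap {c R : ℝ} (hR : 0 < R) (x : ℝ) : (x - c) ^ 2 - |x - c| ^ 4 / R ^ 2 ≤ ph c R x := by
  unfold ph
  rcases le_total |x - c| R with h | h
  · rw [min_eq_left h, sq_abs]
    have : 0 ≤ |x - c| ^ 4 / R ^ 2 := by positivity
    linarith
  · rw [min_eq_right h, ← sq_abs (x - c)]
    have h1 : R ^ 2 ≤ |x - c| ^ 2 := pow_le_pow_left₀ hR.le h 2
    have h2 : |x - c| ^ 2 ≤ |x - c| ^ 4 / R ^ 2 := by
      rw [le_div_iff₀ (by positivity)]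
      calc |x - c| ^ 2 * R ^ 2 ≤ |x - c| ^ 2 * |x - c| ^ 2 :=
            mul_le_mul_of_nonneg_left h1 (by positivity)
        _ = _ := by ring
    have : 0 ≤ R ^ 2 := by positivity
    linarith

lemma ph_cont (c R : ℝ) : Continuous (ph c R) := by
  unfold ph
  fun_prop

/-- the truncated square as a bounded continuous function -/
noncomputable def phb (c R : ℝ) (hR : 0 ≤ R) : ℝ →ᵇ ℝ :=
  BoundedContinuousFunction.ofNormedAddCommGroup (ph c R) (ph_cont c R) (R ^ 2) fun x => by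
    rw [Real.norm_eq_abs, abs_of_nonneg (ph_nonneg _ _ _)]
    exact ph_le' hR x

lemma phb_apply (c R : ℝ) (hR : 0 ≤ R) (x : ℝ) : phb c R hR x = ph c R x := rfl

/-- averages over close sequences -/
lemma avg_near {l : Filter ℕ} {x y : ℕ → ℝ} (h : Near l x y) {f : ℝ → ℝ} {L B : ℝ} (hL : 0 < L)
    (hB : 0 ≤ B) (hf : ∀ u v, |f u - f v| ≤ L * |u - v|) (hfb : ∀ u, |f u| ≤ B) :
    Tendsto (fun N : ℕ => (∑ n ∈ Icc 1 N, f (x n)) / N - (∑ n ∈ Icc 1 N, f (y n)) / N) l
      (𝓝 0) := by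
  classical
  rw [Metric.tendsto_nhds]
  intro η hη
  have h1 := h (η / (2 * L)) (by positivity)
  have h2 := h1.eventually_lt_const (show (0 : ℝ) < η / (4 * B + 1) / 2 by positivity)
  filter_upwards [h2] with N hN
  rw [Real.dist_eq, sub_zero, ← sub_div, ← Finset.sum_sub_distrib]
  rcases Nat.eq_zero_or_pos N with h0 | hN0
  · subst h0
    simpa using hη
  have hN1 : (0 : ℝ) < N := by exact_mod_cast hN0
  rw [abs_div, abs_of_pos hN1, div_lt_iff₀ hN1]
  set S := (Icc 1 N).filter fun n => η / (2 * L) ≤ |x n - y n| with hS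
  have hset : {n : ℕ | 1 ≤ n ∧ n ≤ N ∧ η / (2 * L) ≤ |x n - y n|} = (S : Set ℕ) := by
    ext n
    simp only [hS, Set.mem_ofPred_eq, Finset.coe_filter, Finset.mem_Icc, and_assoc]
  unfold fr at hN
  rw [hset, Set.ncard_coe_finset, div_lt_iff₀ hN1] at hN
  have h3 : ∀ n, |f (x n) - f (y n)| ≤ η / 2 + if η / (2 * L) ≤ |x n - y n| then 2 * B else 0 := by
    intro n
    split_ifs with hc
    · have := abs_sub (f (x n)) (f (y n))
      have h4 := hfb (x n)
      have h5 := hfb (y n)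
      linarith
    · push Not at hc
      rw [lt_div_iff₀ (by positivity)] at hc
      have := hf (x n) (y n)
      linarith
  calc |∑ n ∈ Icc 1 N, (f (x n) - f (y n))| ≤ ∑ n ∈ Icc 1 N, |f (x n) - f (y n)| :=
        Finset.abs_sum_le_sum_abs _ _
    _ ≤ ∑ n ∈ Icc 1 N, (η / 2 + if η / (2 * L) ≤ |x n - y n| then 2 * B else 0) :=
        Finset.sum_le_sum fun n _ => h3 n
    _ = N * (η / 2) + S.card * (2 * B) := by
        rw [Finset.sum_add_distrib, Finset.sum_const, Nat.card_Icc, nsmul_eq_mul,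
          ← Finset.sum_filter, Finset.sum_const, nsmul_eq_mul]
        simp [hS]
    _ ≤ N * (η / 2) + (η / (4 * B + 1) / 2 * N) * (2 * B) :=
        add_le_add le_rfl (mul_le_mul_of_nonneg_right hN.le (by positivity))
    _ < η * N := by
        have h6 : η / (4 * B + 1) / 2 * (2 * B) ≤ η / 4 := by
          rw [div_div, div_mul_eq_mul_div, div_le_div_iff₀ (by positivity) (by positivity)]
          nlinarith
        have h7 := mul_le_mul_of_nonneg_right h6 hN1.le
        have h8 : 0 < η * N := by positivity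
        nlinarith

/-- **the second moments of the limit laws** -/
theorem var_lim (hRH : RiemannHypothesis) : ∃ c C : ℝ, 0 < c ∧ 0 < C ∧ ∀ (l : Filter ℕ) [l.NeBot],
    l ≤ atTop → ∀ a : ℕ → ℝ, Near l a del → ∀ ν : ℕ → Measure ℝ,
    (∀ k, IsProbabilityMeasure (ν k)) → Law l a ν → ∀ k : ℕ,
      Integrable (fun x : ℝ => (x - (k + 1 : ℕ)) ^ 2) (ν k) ∧
      c * (1 + Real.log (k + 1 : ℕ)) ≤ ∫ x : ℝ, (x - (k + 1 : ℕ)) ^ 2 ∂ν k ∧
      ∫ x : ℝ, (x - (k + 1 : ℕ)) ^ 2 ∂ν k ≤ C * (1 + Real.log (k + 1 : ℕ)) := by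
  obtain ⟨C, hC, hU⟩ := Pool.Agent.Q31.GV.var_le hRH
  obtain ⟨c, hc, hL⟩ := Pool.Agent.Q31.GV.var_ge hRH
  obtain ⟨C4, hC4, h4⟩ := Pool.Agent.Q31.GV.mom_SD hRH 3
  refine ⟨c, C, hc, hC, fun l _ hl a ha ν hν hlaw k => ?_⟩
  have := hν k
  set r : ℕ := k + 1 with hr
  have hr1 : 1 ≤ r := by omega
  have hU' := hU r hr1
  unfold Pool.Agent.Q31.GV.Vb at hU'
  have hlog : 0 ≤ Real.log (r : ℝ) := Real.log_natCast_nonneg _
  have hnear : Near l (fun n => ∑ j ∈ range r, a (n + j)) (SD r) :=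
    (ha.trans (near_dl hRH hl)).block hl r
  -- the truncated second moments
  have hkey : ∀ R : ℝ, 0 < R → ∫ x, ph r R x ∂ν k ≤ C * (1 + Real.log r) ∧
      c * (1 + Real.log r) - C4 * (r : ℝ) ^ 4 / R ^ 2 ≤ ∫ x, ph r R x ∂ν k := by
    intro R hR
    have h1 := hlaw k (phb r R hR.le)
    have h2 := avg_near hnear (f := ph r R) (L := 2 * R) (B := R ^ 2) (by positivity)
      (by positivity) (ph_lip hR.le) (fun u => by
        rw [abs_of_nonneg (ph_nonneg _ _ _)]
        exact ph_le' hR.le u)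
    have h3 : Tendsto (fun N : ℕ => (∑ n ∈ Icc 1 N, ph r R (SD r n)) / N) l
        (𝓝 (∫ x, ph r R x ∂ν k)) := by
      have h5 := h1.sub h2
      rw [sub_zero] at h5
      refine (h5.congr fun N => ?_)
      exact sub_sub_cancel ((∑ n ∈ Icc 1 N, ph r R (∑ j ∈ range r, a (n + j))) / (N : ℝ)) _
    constructor
    · refine le_of_tendsto h3 ?_
      filter_upwards [hl hU', hl (eventually_gt_atTop 0)] with N h5 h6
      have hN1 : (0 : ℝ) < N := by exact_mod_cast h6
      rw [div_le_iff₀ hN1]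
      exact (Finset.sum_le_sum fun n _ => ph_le hR.le _).trans h5
    · refine ge_of_tendsto h3 ?_
      filter_upwards [hl (hL r hr1), hl (eventually_gt_atTop 0), hl (eventually_ge_atTop r)]
        with N h5 h6 h7
      have hN1 : (0 : ℝ) < N := by exact_mod_cast h6
      rw [le_div_iff₀ hN1]
      have h8 := h4 r N h7
      have h9 : ∑ n ∈ Icc 1 N, ((SD r n - r) ^ 2 - |SD r n - r| ^ 4 / R ^ 2) ≤
          ∑ n ∈ Icc 1 N, ph r R (SD r n) := Finset.sum_le_sum fun n _ => ph_gap hR _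
      rw [Finset.sum_sub_distrib, ← Finset.sum_div] at h9
      have h10 : (∑ n ∈ Icc 1 N, |SD r n - r| ^ 4) / R ^ 2 ≤ C4 * (r : ℝ) ^ 4 * N / R ^ 2 :=
        div_le_div_of_nonneg_right h8 (by positivity)
      have h11 : (c * (1 + Real.log r) - C4 * (r : ℝ) ^ 4 / R ^ 2) * N =
          c * (1 + Real.log r) * N - C4 * (r : ℝ) ^ 4 * N / R ^ 2 := by ring
      rw [h11]
      linarith
  have hint : ∀ R : ℝ, 0 < R → Integrable (ph r R) (ν k) := fun R hR =>
    (phb r R hR.le).integrable (ν k)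
  have hfat : ∫⁻ x : ℝ, ENNReal.ofReal ((x - r) ^ 2) ∂ν k ≤ ENNReal.ofReal (C * (1 + Real.log r)) := by
    have h1 : ∀ x : ℝ, Filter.liminf (fun n : ℕ => ENNReal.ofReal (ph r ((n : ℝ) + 1) x)) atTop =
        ENNReal.ofReal ((x - r) ^ 2) := by
      intro x
      apply Tendsto.liminf_eq
      apply tendsto_const_nhds.congr'
      filter_upwards [(tendsto_natCast_atTop_atTop (R := ℝ)).eventually_ge_atTop |x - r|] with n hn
      unfold ph
      rw [min_eq_left (by linarith), sq_abs]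
    simp_rw [← h1]
    refine (lintegral_liminf_le fun n => ?_).trans ?_
    · exact (ph_cont _ _).measurable.ennreal_ofReal
    · refine Filter.liminf_le_of_le (by isBoundedDefault) fun b hb => ?_
      obtain ⟨n, hn⟩ := hb.exists
      refine hn.trans ?_
      have hn0 : (0 : ℝ) < (n : ℝ) + 1 := by positivity
      rw [← ofReal_integral_eq_lintegral_ofReal (hint _ hn0)
        (Eventually.of_forall fun x => ph_nonneg _ _ _)]
      exact ENNReal.ofReal_le_ofReal (hkey _ hn0).1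
  have hmeas : AEStronglyMeasurable (fun x : ℝ => (x - r) ^ 2) (ν k) := by fun_prop
  have hI : Integrable (fun x : ℝ => (x - r) ^ 2) (ν k) := by
    rw [← lintegral_ofReal_ne_top_iff_integrable hmeas (Eventually.of_forall fun x => sq_nonneg _)]
    exact (hfat.trans_lt ENNReal.ofReal_lt_top).ne
  refine ⟨hI, ?_, ?_⟩
  · have h1 : Tendsto (fun n : ℕ => c * (1 + Real.log r) - C4 * (r : ℝ) ^ 4 / (n : ℝ) ^ 2) atTop
        (𝓝 (c * (1 + Real.log r) - 0)) := by
      refine tendsto_const_nhds.sub ?_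
      refine Tendsto.const_div_atTop ?_ _
      exact (tendsto_pow_atTop (two_ne_zero)).comp tendsto_natCast_atTop_atTop
    rw [sub_zero] at h1
    refine le_of_tendsto h1 ?_
    filter_upwards [eventually_gt_atTop 0] with n hn
    have hn0 : (0 : ℝ) < n := by exact_mod_cast hn
    exact (hkey n hn0).2.trans (integral_mono (hint n hn0) hI fun x => ph_le hn0.le x)
  · rw [← ofReal_integral_eq_lintegral_ofReal hI (Eventually.of_forall fun x => sq_nonneg _)] at hfat
    exact (ENNReal.ofReal_le_ofReal_iff (by positivity)).1 hfat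

end Pool.Agent.Q31.HM
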