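import Mathlib

set_option autoImplicit false

/-! # Variance sums of a contraction are quadratic up to a bounded error -/

open Finset
open scoped RealInnerProductSpace

namespace Pool.Agent.Q31.HM

variable {E : Type*} [NormedAddCommGroup E] [InnerProductSpace ℝ E]

/-- the variance sums `∑_{i,j<r} ⟪g, P^|i-j| g⟫` -/
noncomputable def vr (P : E →ₗ[ℝ] E) (g : E) : ℕ → ℝ
  | 0 => 0
  | r + 1 => vr P g r + ⟪g, g⟫ + 2 * ∑ j ∈ range r, ⟪g, (P^[j + 1]) g⟫

lemma iter_sub (P : E →ₗ[ℝ] E) (x y : E) (n : ℕ) : (P^[n]) (x - y) = (P^[n]) x - (P^[n]) y := by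
  induction n generalizing x y with
  | zero => rfl
  | succ n ih => rw [Function.iterate_succ_apply, Function.iterate_succ_apply,
      Function.iterate_succ_apply, map_sub, ih]

lemma iter_add (P : E →ₗ[ℝ] E) (x y : E) (n : ℕ) : (P^[n]) (x + y) = (P^[n]) x + (P^[n]) y := by
  induction n generalizing x y with
  | zero => rfl
  | succ n ih => rw [Function.iterate_succ_apply, Function.iterate_succ_apply,
      Function.iterate_succ_apply, map_add, ih]

lemma iter_fix {P : E →ₗ[ℝ] E} {x : E} (h : P x = x) (n : ℕ) : (P^[n]) x = x := by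
  induction n with
  | zero => rfl
  | succ n ih => rw [Function.iterate_succ_apply, h, ih]

lemma iter_norm {P : E →ₗ[ℝ] E} (hP : ∀ x, ‖P x‖ ≤ ‖x‖) (x : E) (n : ℕ) : ‖(P^[n]) x‖ ≤ ‖x‖ := by
  induction n with
  | zero => exact le_rfl
  | succ n ih => rw [Function.iterate_succ_apply']; exact (hP _).trans ih

/-- decomposition of the space -/
lemma decomp [FiniteDimensional ℝ E] {P : E →ₗ[ℝ] E} (hP : ∀ x, ‖P x‖ ≤ ‖x‖) (g : E) :
    ∃ g0 q : E, g = g0 + (q - P q) ∧ P g0 = g0 ∧ ∀ x, ⟪g0, P x⟫ = ⟪g0, x⟫ := by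
  obtain ⟨y, hy, z, hz, h⟩ := (LinearMap.range (LinearMap.id - P)).exists_add_mem_mem_orthogonal g
  obtain ⟨q, rfl⟩ := hy
  have h1 : ∀ x, ⟪z, P x⟫ = ⟪z, x⟫ := by
    intro x
    have h2 := (Submodule.mem_orthogonal _ z).1 hz ((LinearMap.id - P : E →ₗ[ℝ] E) x) ⟨x, rfl⟩
    rw [LinearMap.sub_apply, LinearMap.id_apply, real_inner_comm, inner_sub_right] at h2
    linarith
  refine ⟨z, q, ?_, ?_, h1⟩
  · rw [h, LinearMap.sub_apply, LinearMap.id_apply, add_comm]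
  · have h2 : ‖P z - z‖ ^ 2 ≤ 0 := by
      rw [norm_sub_sq_real, real_inner_comm, h1 z, real_inner_self_eq_norm_sq]
      have := pow_le_pow_left₀ (norm_nonneg _) (hP z) 2
      linarith
    have h3 : ‖P z - z‖ = 0 := by
      have := sq_nonneg ‖P z - z‖
      exact pow_eq_zero_iff (two_ne_zero) |>.1 (le_antisymm h2 this)
    exact sub_eq_zero.1 (norm_eq_zero.1 h3)

/-- **the variance sums are `α r² + β r` up to a bounded error** -/
theorem vr_quad [FiniteDimensional ℝ E] {P : E →ₗ[ℝ] E} (hP : ∀ x, ‖P x‖ ≤ ‖x‖) (g : E) :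
    ∃ α β B : ℝ, 0 ≤ α ∧ 0 ≤ β ∧ ∀ r : ℕ, |vr P g r - (α * r ^ 2 + β * r)| ≤ B := by
  obtain ⟨g0, h', hg, hfix, hadj⟩ := decomp hP g
  obtain ⟨h0, q, hh, hfix0, hadj0⟩ := decomp hP h'
  obtain ⟨h, hhd⟩ : ∃ h, h = q - P q := ⟨_, rfl⟩
  obtain ⟨k, hk⟩ : ∃ k, k = h - P h := ⟨_, rfl⟩
  have hgk : g = g0 + k := by
    rw [hg, hh, hk, ← hhd, map_add, hfix0]
    abel
  have o1 : ⟪g0, k⟫ = 0 := by
    rw [hk, inner_sub_right, hadj, sub_self]
  have o2 : ∀ n, ⟪g0, (P^[n]) k⟫ = 0 := by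
    intro n
    induction n with
    | zero => exact o1
    | succ n ih => rw [Function.iterate_succ_apply', hadj, ih]
  have e1 : ⟪g, g⟫ = ‖g0‖ ^ 2 + ‖k‖ ^ 2 := by
    rw [hgk, inner_add_left, inner_add_right, inner_add_right, real_inner_comm g0 k, o1,
      real_inner_self_eq_norm_sq, real_inner_self_eq_norm_sq]
    ring
  have e2 : ∀ j, ⟪g, (P^[j]) g⟫ = ‖g0‖ ^ 2 + ⟪k, (P^[j]) k⟫ := by
    intro j
    rw [hgk, iter_add, iter_fix hfix, inner_add_left, inner_add_right, inner_add_right, o2,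
      real_inner_comm g0 k, o1, real_inner_self_eq_norm_sq]
    ring
  have e3 : ∀ r : ℕ, ∑ j ∈ range r, ⟪k, (P^[j + 1]) k⟫ = ⟪k, P h - (P^[r + 1]) h⟫ := by
    intro r
    induction r with
    | zero =>
      rw [Finset.sum_range_zero, zero_add, Function.iterate_one, sub_self, inner_zero_right]
    | succ r ih =>
      rw [Finset.sum_range_succ, ih, ← inner_add_right]
      congr 1
      have : (P^[r + 1]) k = (P^[r + 1]) h - (P^[r + 1 + 1]) h := by
        conv_lhs => rw [hk]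
        rw [iter_sub, ← Function.iterate_succ_apply]
      rw [this]
      abel
  have e4 : ‖k‖ ^ 2 + 2 * ⟪k, P h⟫ = ‖h‖ ^ 2 - ‖P h‖ ^ 2 := by
    rw [hk, norm_sub_sq_real, inner_sub_left, real_inner_self_eq_norm_sq]
    ring
  have key : ∀ r : ℕ, vr P g r = ‖g0‖ ^ 2 * r ^ 2 + (‖h‖ ^ 2 - ‖P h‖ ^ 2) * r -
      2 * ⟪k, P q - (P^[r + 1]) q⟫ := by
    intro r
    induction r with
    | zero =>
      rw [zero_add, Function.iterate_one, sub_self, inner_zero_right]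
      unfold vr
      simp
    | succ r ih =>
      have e5 : ∑ j ∈ range r, ⟪g, (P^[j + 1]) g⟫ = r * ‖g0‖ ^ 2 + ⟪k, P h - (P^[r + 1]) h⟫ := by
        rw [← e3]
        simp_rw [e2]
        rw [Finset.sum_add_distrib, Finset.sum_const, Finset.card_range, nsmul_eq_mul]
      have e6 : (P^[r + 1]) h = (P^[r + 1]) q - (P^[r + 1 + 1]) q := by
        conv_lhs => rw [hhd]
        rw [iter_sub, ← Function.iterate_succ_apply]
      show vr P g r + ⟪g, g⟫ + 2 * ∑ j ∈ range r, ⟪g, (P^[j + 1]) g⟫ = _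
      rw [ih, e5, e1, ← e4, e6]
      rw [inner_sub_right, inner_sub_right, inner_sub_right, inner_sub_right]
      push_cast
      ring
  refine ⟨‖g0‖ ^ 2, ‖h‖ ^ 2 - ‖P h‖ ^ 2, 4 * (‖k‖ * ‖q‖), sq_nonneg _, ?_, fun r => ?_⟩
  · have := pow_le_pow_left₀ (norm_nonneg _) (hP h) 2
    linarith
  · rw [key r]
    have h1 : |⟪k, P q - (P^[r + 1]) q⟫| ≤ ‖k‖ * (2 * ‖q‖) := by
      refine (abs_real_inner_le_norm _ _).trans (mul_le_mul_of_nonneg_left ?_ (norm_nonneg _))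
      refine (norm_sub_le _ _).trans ?_
      have := hP q
      have := iter_norm hP q (r + 1)
      linarith
    have e : ‖g0‖ ^ 2 * r ^ 2 + (‖h‖ ^ 2 - ‖P h‖ ^ 2) * r - 2 * ⟪k, P q - (P^[r + 1]) q⟫ -
        (‖g0‖ ^ 2 * r ^ 2 + (‖h‖ ^ 2 - ‖P h‖ ^ 2) * r) = -(2 * ⟪k, P q - (P^[r + 1]) q⟫) := by ring
    rw [e, abs_neg, abs_mul, abs_two]
    linarith

end Pool.Agent.Q31.HM
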