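import Pool.Agent.Q31.GV.Ge
import Pool.Agent.Q173.NL.Disp

set_option autoImplicit false

/-! # Sequences that agree up to small errors at almost all indices -/

open Filter Topology Finset

namespace Pool.Agent.Q31.HM

open SG (ord NZ)
open Pool.Agent.Y743.LR (dl dif yv dif_yv ord_step dif_nonneg ord_tendsto)
open Pool.Agent.Q31.GV (SD Vb)

/-- the proportion of the indices `n ≤ N` with `P n` -/
noncomputable def fr (N : ℕ) (P : ℕ → Prop) : ℝ :=
  ({n : ℕ | 1 ≤ n ∧ n ≤ N ∧ P n}.ncard : ℝ) / N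

lemma fin_set (N : ℕ) (P : ℕ → Prop) : {n : ℕ | 1 ≤ n ∧ n ≤ N ∧ P n}.Finite :=
  (Set.finite_Iic N).subset fun _ hn => hn.2.1

lemma fr_nonneg (N : ℕ) (P : ℕ → Prop) : 0 ≤ fr N P := by unfold fr; positivity

lemma fr_mono {N : ℕ} {P Q : ℕ → Prop} (h : ∀ n, 1 ≤ n → n ≤ N → P n → Q n) :
    fr N P ≤ fr N Q := by
  unfold fr
  apply div_le_div_of_nonneg_right _ (Nat.cast_nonneg N)
  have h1 : {n : ℕ | 1 ≤ n ∧ n ≤ N ∧ P n} ⊆ {n : ℕ | 1 ≤ n ∧ n ≤ N ∧ Q n} :=
    fun n hn => ⟨hn.1, hn.2.1, h n hn.1 hn.2.1 hn.2.2⟩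
  exact_mod_cast Set.ncard_le_ncard h1 (fin_set N Q)

lemma fr_or (N : ℕ) (P Q : ℕ → Prop) : fr N (fun n => P n ∨ Q n) ≤ fr N P + fr N Q := by
  unfold fr
  rw [← add_div]
  apply div_le_div_of_nonneg_right _ (Nat.cast_nonneg N)
  have h : {n : ℕ | 1 ≤ n ∧ n ≤ N ∧ (P n ∨ Q n)} =
      {n : ℕ | 1 ≤ n ∧ n ≤ N ∧ P n} ∪ {n : ℕ | 1 ≤ n ∧ n ≤ N ∧ Q n} := by
    ext n
    simp only [Set.mem_ofPred_eq, Set.mem_union]
    tauto
  rw [h]
  exact_mod_cast Set.ncard_union_le _ _

lemma fr_shift (N j : ℕ) (P : ℕ → Prop) : fr N (fun n => P (n + j)) ≤ fr N P + j / N := by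
  unfold fr
  rw [← add_div]
  apply div_le_div_of_nonneg_right _ (Nat.cast_nonneg N)
  have h : ((fun n => n + j) '' {n : ℕ | 1 ≤ n ∧ n ≤ N ∧ P (n + j)}) ⊆
      {n : ℕ | 1 ≤ n ∧ n ≤ N ∧ P n} ∪ ((Finset.Ioc N (N + j) : Finset ℕ) : Set ℕ) := by
    rintro _ ⟨n, ⟨h1, h2, h3⟩, rfl⟩
    by_cases h4 : n + j ≤ N
    · left
      exact ⟨by dsimp only; omega, h4, h3⟩
    · right
      simp only [Finset.coe_Ioc, Set.mem_Ioc]
      omega
  have h2 := Set.ncard_le_ncard h ((fin_set N P).union (Finset.finite_toSet _))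
  rw [Set.ncard_image_of_injective _ (add_left_injective j)] at h2
  have h3 := Set.ncard_union_le {n : ℕ | 1 ≤ n ∧ n ≤ N ∧ P n}
    ((Finset.Ioc N (N + j) : Finset ℕ) : Set ℕ)
  rw [Set.ncard_coe_finset, Nat.card_Ioc] at h3
  have h4 : {n : ℕ | 1 ≤ n ∧ n ≤ N ∧ P (n + j)}.ncard ≤ {n : ℕ | 1 ≤ n ∧ n ≤ N ∧ P n}.ncard + j := by
    omega
  exact_mod_cast h4

/-- `x n - y n` is small for almost all indices along `l` -/
def Near (l : Filter ℕ) (x y : ℕ → ℝ) : Prop :=
  ∀ ε : ℝ, 0 < ε → Tendsto (fun N => fr N fun n => ε ≤ |x n - y n|) l (𝓝 0)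

variable {l : Filter ℕ}

lemma squeeze {f g : ℕ → ℝ} (hf : ∀ N, 0 ≤ f N) (h : ∀ N, f N ≤ g N) (hg : Tendsto g l (𝓝 0)) :
    Tendsto f l (𝓝 0) := squeeze_zero hf h hg

lemma Near.mono {l' : Filter ℕ} {x y : ℕ → ℝ} (h : Near l x y) (hl : l' ≤ l) : Near l' x y :=
  fun ε hε => (h ε hε).mono_left hl

lemma Near.trans {x y z : ℕ → ℝ} (h1 : Near l x y) (h2 : Near l y z) : Near l x z := by
  intro ε hε
  have h3 := (h1 (ε / 2) (by positivity)).add (h2 (ε / 2) (by positivity))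
  rw [add_zero] at h3
  refine squeeze (fun N => fr_nonneg _ _) (fun N => ?_) h3
  refine (fr_mono fun n _ _ hn => ?_).trans (fr_or N (fun n => ε / 2 ≤ |x n - y n|)
    fun n => ε / 2 ≤ |y n - z n|)
  by_contra hcon
  push Not at hcon
  have := abs_sub_le (x n) (y n) (z n)
  linarith [hcon.1, hcon.2]

lemma Near.add {x y x' y' : ℕ → ℝ} (h1 : Near l x y) (h2 : Near l x' y') :
    Near l (fun n => x n + x' n) (fun n => y n + y' n) := by
  intro ε hε
  have h3 := (h1 (ε / 2) (by positivity)).add (h2 (ε / 2) (by positivity))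
  rw [add_zero] at h3
  refine squeeze (fun N => fr_nonneg _ _) (fun N => ?_) h3
  refine (fr_mono fun n _ _ hn => ?_).trans (fr_or N (fun n => ε / 2 ≤ |x n - y n|)
    fun n => ε / 2 ≤ |x' n - y' n|)
  by_contra hcon
  push Not at hcon
  have e : x n + x' n - (y n + y' n) = (x n - y n) + (x' n - y' n) := by ring
  rw [e] at hn
  have := abs_add_le (x n - y n) (x' n - y' n)
  linarith [hcon.1, hcon.2]

lemma Near.rfl (x : ℕ → ℝ) : Near l x x := by
  intro ε hε
  refine squeeze (fun N => fr_nonneg _ _) (g := fun _ => 0) (fun N => ?_) tendsto_const_nhds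
  unfold fr
  have : {n : ℕ | 1 ≤ n ∧ n ≤ N ∧ ε ≤ |x n - x n|} = ∅ := by
    ext n
    simp only [sub_self, abs_zero, Set.mem_ofPred_eq, Set.mem_empty_iff_false, iff_false]
    rintro ⟨_, _, h⟩
    linarith
  rw [this]
  simp

lemma inv_lim (hl : l ≤ atTop) (j : ℝ) : Tendsto (fun N : ℕ => j / (N : ℝ)) l (𝓝 0) :=
  (tendsto_const_div_atTop_nhds_zero_nat j).mono_left hl

lemma Near.shift (hl : l ≤ atTop) {x y : ℕ → ℝ} (h : Near l x y) (j : ℕ) :
    Near l (fun n => x (n + j)) (fun n => y (n + j)) := by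
  intro ε hε
  have h3 := (h ε hε).add (inv_lim hl j)
  rw [add_zero] at h3
  exact squeeze (fun N => fr_nonneg _ _) (fun N => fr_shift N j fun n => ε ≤ |x n - y n|) h3

lemma Near.block (hl : l ≤ atTop) {x y : ℕ → ℝ} (h : Near l x y) (k : ℕ) :
    Near l (fun n => ∑ j ∈ range k, x (n + j)) (fun n => ∑ j ∈ range k, y (n + j)) := by
  induction k with
  | zero =>
    simp only [Finset.range_zero, Finset.sum_empty]
    exact Near.rfl _
  | succ k ih =>
    simp only [Finset.sum_range_succ]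
    exact ih.add (h.shift hl k)

/-- Markov's inequality -/
lemma fr_markov {N : ℕ} (hN : 0 < N) {x : ℕ → ℝ} {A K : ℝ} (hK : 0 < K)
    (h : ∑ n ∈ Icc 1 N, |x n| ≤ A * N) : fr N (fun n => K ≤ |x n|) ≤ A / K := by
  classical
  have hN0 : (0 : ℝ) < N := by exact_mod_cast hN
  have hset : {n : ℕ | 1 ≤ n ∧ n ≤ N ∧ K ≤ |x n|} =
      (((Icc 1 N).filter fun n => K ≤ |x n| : Finset ℕ) : Set ℕ) := by
    ext n
    simp only [Set.mem_ofPred_eq, Finset.coe_filter, Finset.mem_Icc, and_assoc]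
  unfold fr
  rw [hset, Set.ncard_coe_finset, div_le_div_iff₀ hN0 hK]
  have h1 : ∑ n ∈ (Icc 1 N).filter (fun n => K ≤ |x n|), K ≤
      ∑ n ∈ (Icc 1 N).filter (fun n => K ≤ |x n|), |x n| :=
    Finset.sum_le_sum fun n hn => (Finset.mem_filter.1 hn).2
  rw [Finset.sum_const, nsmul_eq_mul] at h1
  have h2 : ∑ n ∈ (Icc 1 N).filter (fun n => K ≤ |x n|), |x n| ≤ ∑ n ∈ Icc 1 N, |x n| :=
    Finset.sum_le_sum_of_subset_of_nonneg (Finset.filter_subset _ _) fun n _ _ => abs_nonneg _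
  linarith

open Pool.Agent.Q173.NL (del far)

lemma ord_growth : ∀ᶠ n : ℕ in atTop, ord (n + 1) ≤ 3 * ord n := by
  obtain ⟨T0, hT0⟩ := far 1
  filter_upwards [ord_tendsto.eventually_ge_atTop (max T0 1), eventually_ge_atTop 1] with n h1 h2
  have h3 := hT0 (ord n) ((le_max_left _ _).trans h1)
  have h4 : n ≤ NZ (ord n) := (SG.ord_le_iff h2 _).mp le_rfl
  have h5 : NZ (ord n) ≤ NZ (2 * ord n) := SG.NZ_mono (by linarith [le_max_right T0 1])
  exact (SG.ord_le_iff (by omega) _).mpr (by omega)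

/-- the two normalisations -/
lemma del_dl : ∀ᶠ n : ℕ in atTop, 2 ≤ Real.log (ord n / (2 * Real.pi)) ∧
    |del n - dl n| ≤ 5 / Real.log (ord n / (2 * Real.pi)) * |dl n| := by
  have hlog : Tendsto (fun n : ℕ => Real.log (ord n / (2 * Real.pi))) atTop atTop :=
    Real.tendsto_log_atTop.comp (ord_tendsto.atTop_div_const (by positivity))
  filter_upwards [ord_growth, ord_tendsto.eventually_ge_atTop 1, eventually_ge_atTop 1,
    hlog.eventually_ge_atTop 2] with n h1 h2 h3 h4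
  refine ⟨h4, ?_⟩
  have hpi := Real.pi_gt_three
  have hpi2 := Real.pi_lt_d2
  obtain ⟨u, hu⟩ : ∃ u, u = ord n := ⟨_, Eq.refl _⟩
  obtain ⟨v, hv⟩ : ∃ v, v = ord (n + 1) := ⟨_, Eq.refl _⟩
  have huv : u ≤ v := by rw [hu, hv]; exact ord_step h3
  rw [← hu] at h1 h2 h4
  rw [← hv] at h1
  have hu0 : 0 < u := by linarith
  have hv0 : 0 < v := by linarith
  have hL : Real.log (u / (2 * Real.pi)) = Real.log u - Real.log (2 * Real.pi) :=
    Real.log_div hu0.ne' (by positivity)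
  have hl2 : Real.log (2 * Real.pi) ≤ 2 := by
    have e1 : Real.exp 2 = Real.exp 1 * Real.exp 1 := by rw [← Real.exp_add]; norm_num
    have e2 := Real.exp_one_gt_d9
    have e3 : (2.7 : ℝ) * 2.7 ≤ Real.exp 1 * Real.exp 1 :=
      mul_le_mul (by linarith) (by linarith) (by norm_num) (by positivity)
    rw [Real.log_le_iff_le_exp (by positivity), e1]
    linarith
  have hl0 : 0 ≤ Real.log (2 * Real.pi) := Real.log_nonneg (by linarith)
  have b1 : 0 ≤ Real.log v - Real.log u := sub_nonneg.2 (Real.log_le_log hu0 huv)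
  have b2 : v * (Real.log v - Real.log u) ≤ 3 * (v - u) := by
    have c1 : Real.log v - Real.log u = Real.log (v / u) := (Real.log_div hv0.ne' hu0.ne').symm
    have c2 : Real.log (v / u) ≤ v / u - 1 := Real.log_le_sub_one_of_pos (div_pos hv0 hu0)
    have c3 : v / u - 1 = (v - u) / u := by field_simp
    rw [c1]
    calc v * Real.log (v / u) ≤ (3 * u) * ((v - u) / u) := by
          apply mul_le_mul h1 (by rw [← c3]; exact c2) (by rw [← c1]; exact b1) (by positivity)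
      _ = 3 * (v - u) := by field_simp
  have g0 : 0 ≤ v - u := by linarith
  have e1 : del n - dl n = (v * (Real.log v - Real.log u) + (v - u) * Real.log (2 * Real.pi)) /
      (2 * Real.pi) := by
    unfold Pool.Agent.Q173.NL.del Pool.Agent.Y743.LR.dl
    rw [← hu, ← hv, hL]
    ring
  have e2 : |dl n| = (v - u) * Real.log (u / (2 * Real.pi)) / (2 * Real.pi) := by
    unfold Pool.Agent.Y743.LR.dl
    rw [← hu, ← hv]
    exact abs_of_nonneg (by positivity)
  rw [← hu] 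
  have e3 : 5 / Real.log (u / (2 * Real.pi)) * |dl n| = 5 * (v - u) / (2 * Real.pi) := by
    rw [e2]
    field_simp
  rw [e3, e1]
  have n0 : 0 ≤ v * (Real.log v - Real.log u) + (v - u) * Real.log (2 * Real.pi) := by positivity
  rw [abs_of_nonneg (by positivity)]
  apply div_le_div_of_nonneg_right _ (by positivity)
  have b3 : (v - u) * Real.log (2 * Real.pi) ≤ (v - u) * 2 := mul_le_mul_of_nonneg_left hl2 g0
  linarith

/-- the spacings in the two normalisations are close at almost all indices -/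
lemma near_dl (hRH : RiemannHypothesis) (hl : l ≤ atTop) : Near l del dl := by
  refine Near.mono (l := atTop) (fun ε hε => ?_) hl
  obtain ⟨C, hC, hmom⟩ := Pool.Agent.Q31.GV.mom_SD hRH 0
  have hlog : Tendsto (fun n : ℕ => Real.log (ord n / (2 * Real.pi))) atTop atTop :=
    Real.tendsto_log_atTop.comp (ord_tendsto.atTop_div_const (by positivity))
  rw [Metric.tendsto_atTop]
  intro η hη
  obtain ⟨K, hK⟩ : ∃ K : ℝ, K = 2 * (C + 1) / (ε * η) + 1 := ⟨_, Eq.refl _⟩
  have hK0 : 0 < K := by rw [hK]; positivity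
  obtain ⟨n0, hn0⟩ := (del_dl.and (hlog.eventually_ge_atTop (5 * K))).exists_forall_of_atTop
  obtain ⟨N1, hN1⟩ := ((inv_lim le_rfl (n0 : ℝ)).eventually_lt_const
    (show (0 : ℝ) < η / 2 by positivity)).exists_forall_of_atTop
  refine ⟨max N1 1, fun N hN => ?_⟩
  rw [Real.dist_eq, sub_zero, abs_of_nonneg (fr_nonneg _ _)]
  have hNpos : 0 < N := lt_of_lt_of_le one_pos ((le_max_right _ _).trans hN)
  have h1 : fr N (fun n => ε ≤ |del n - dl n|) ≤ fr N (fun n => n < n0) +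
      fr N (fun n => ε * K ≤ |dl n|) := by
    refine (fr_mono fun n _ _ hn => ?_).trans (fr_or N (fun n => n < n0) fun n => ε * K ≤ |dl n|)
    rcases Nat.lt_or_ge n n0 with h | h
    · exact Or.inl h
    · right
      obtain ⟨⟨a1, a2⟩, a3⟩ := hn0 n h
      have hL0 : 0 < Real.log (ord n / (2 * Real.pi)) := by linarith
      have a4 : ε ≤ 5 / Real.log (ord n / (2 * Real.pi)) * |dl n| := hn.trans a2
      rw [div_mul_eq_mul_div, le_div_iff₀ hL0] at a4
      have a5 := mul_le_mul_of_nonneg_left a3 hε.le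
      linarith
  have h2 : fr N (fun n => n < n0) ≤ n0 / N := by
    unfold fr
    apply div_le_div_of_nonneg_right _ (Nat.cast_nonneg N)
    have h3 : {n : ℕ | 1 ≤ n ∧ n ≤ N ∧ n < n0} ⊆ ((Finset.range n0 : Finset ℕ) : Set ℕ) := by
      rintro n ⟨_, _, h⟩
      simpa using h
    have h4 := Set.ncard_le_ncard h3 (Finset.finite_toSet _)
    rw [Set.ncard_coe_finset, Finset.card_range] at h4
    exact_mod_cast h4
  have h3 : fr N (fun n => ε * K ≤ |dl n|) ≤ (C + 1) / (ε * K) := by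
    apply fr_markov hNpos (by positivity)
    have h4 := hmom 1 N hNpos
    simp only [Nat.cast_one, zero_add, pow_one, mul_one] at h4
    have h5 : ∀ n, |dl n| ≤ |SD 1 n - 1| + 1 := by
      intro n
      have e : SD 1 n = dl n := by
        unfold Pool.Agent.Q31.GV.SD
        rw [Finset.sum_range_one, add_zero]
      rw [e]
      have := abs_sub_le (dl n) 1 0
      simp only [sub_zero, abs_one] at this
      exact this
    calc ∑ n ∈ Icc 1 N, |dl n| ≤ ∑ n ∈ Icc 1 N, (|SD 1 n - 1| + 1) :=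
          Finset.sum_le_sum fun n _ => h5 n
      _ = ∑ n ∈ Icc 1 N, |SD 1 n - 1| + N := by
          rw [Finset.sum_add_distrib, Finset.sum_const, Nat.card_Icc, nsmul_eq_mul, mul_one]
          simp
      _ ≤ (C + 1) * N := by linarith
  have h4 : (C + 1) / (ε * K) < η / 2 := by
    rw [div_lt_iff₀ (by positivity), hK]
    have : ε * (2 * (C + 1) / (ε * η) + 1) = 2 * (C + 1) / η + ε := by field_simp
    rw [this, mul_add]
    have e : η / 2 * (2 * (C + 1) / η) = C + 1 := by field_simp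
    rw [e]
    have : 0 < η / 2 * ε := by positivity
    linarith
  have h5 := hN1 N ((le_max_left _ _).trans hN)
  linarith

end Pool.Agent.Q31.HM
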