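import Pool.Agent.Q31.HM.Excl

set_option autoImplicit false

/-! # Stationary processes with short memory are not limit laws of the spacings -/

open Filter Topology Finset MeasureTheory BoundedContinuousFunction

namespace Pool.Agent.Q31.HM

open Pool.Agent.Q173.NL (del)

variable {Ω : Type*} [MeasurableSpace Ω] {μ : Measure Ω} [IsProbabilityMeasure μ]

/-- the laws of the block sums of length `k + 1` of a process -/
noncomputable def plaw (μ : Measure Ω) (X : ℕ → Ω → ℝ) (k : ℕ) : Measure ℝ :=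
  μ.map fun ω => ∑ j ∈ range (k + 1), X j ω

omit [IsProbabilityMeasure μ] in
lemma sum_aem {X : ℕ → Ω → ℝ} (hX : ∀ j, MemLp (X j) 2 μ) (k : ℕ) :
    AEMeasurable (fun ω => ∑ j ∈ range k, X j ω) μ :=
  Finset.aemeasurable_fun_sum _ fun j _ => (hX j).aestronglyMeasurable.aemeasurable

lemma plaw_prob {X : ℕ → Ω → ℝ} (hX : ∀ j, MemLp (X j) 2 μ) (k : ℕ) :
    IsProbabilityMeasure (plaw μ X k) :=
  Measure.isProbabilityMeasure_map (sum_aem hX (k + 1))

lemma plaw_sq {X : ℕ → Ω → ℝ} (hX : ∀ j, MemLp (X j) 2 μ) (k : ℕ) :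
    ∫ x : ℝ, (x - (k + 1 : ℕ)) ^ 2 ∂plaw μ X k =
      ∫ ω, (∑ j ∈ range (k + 1), (X j ω - 1)) ^ 2 ∂μ := by
  unfold plaw
  rw [integral_map (sum_aem hX (k + 1)) (by fun_prop)]
  congr 1
  funext ω
  rw [Finset.sum_sub_distrib, Finset.sum_const, Finset.card_range, nsmul_eq_mul, mul_one]

/-- second moments of sums -/
noncomputable def e2 (μ : Measure Ω) (Y : ℕ → Ω → ℝ) (r : ℕ) : ℝ :=
  ∫ ω, (∑ j ∈ range r, Y j ω) ^ 2 ∂μ

omit [IsProbabilityMeasure μ] in
lemma e2_succ {Y : ℕ → Ω → ℝ} (hY : ∀ j, MemLp (Y j) 2 μ) (r : ℕ) :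
    e2 μ Y (r + 1) = e2 μ Y r + 2 * ∑ i ∈ range r, ∫ ω, Y i ω * Y r ω ∂μ +
      ∫ ω, Y r ω * Y r ω ∂μ := by
  have hS : ∀ r, MemLp (fun ω => ∑ j ∈ range r, Y j ω) 2 μ := fun r =>
    memLp_finsetSum _ fun j _ => hY j
  have hi : ∀ i j, Integrable (fun ω => Y i ω * Y j ω) μ := fun i j => (hY i).integrable_mul (hY j)
  unfold e2
  have e : ∀ ω, (∑ j ∈ range (r + 1), Y j ω) ^ 2 =
      (∑ j ∈ range r, Y j ω) ^ 2 + (2 * ∑ i ∈ range r, Y i ω * Y r ω + Y r ω * Y r ω) := by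
    intro ω
    rw [Finset.sum_range_succ, ← Finset.sum_mul]
    ring
  simp_rw [e]
  have i1 : Integrable (fun ω => 2 * ∑ i ∈ range r, Y i ω * Y r ω) μ :=
    (integrable_finsetSum _ fun i _ => hi i r).const_mul 2
  have i0 : Integrable (fun ω => (∑ j ∈ range r, Y j ω) ^ 2) μ := (hS r).integrable_sq
  have i2 : Integrable (fun ω => 2 * ∑ i ∈ range r, Y i ω * Y r ω + Y r ω * Y r ω) μ :=
    i1.add (hi r r)
  rw [integral_add i0 i2, integral_add i1 (hi r r), integral_const_mul,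
    integral_finsetSum _ fun i _ => hi i r, add_assoc]

omit [IsProbabilityMeasure μ] in
lemma e2_zero (Y : ℕ → Ω → ℝ) : e2 μ Y 0 = 0 := by
  unfold e2
  simp

omit [IsProbabilityMeasure μ] in
/-- the second moments of the sums of a process with covariances `ρ` and squared mean `α` -/
lemma e2_cov {Y : ℕ → Ω → ℝ} (hY : ∀ j, MemLp (Y j) 2 μ) {α : ℝ} {ρ : ℕ → ℝ}
    (h : ∀ i j, ∫ ω, Y i ω * Y (i + j) ω ∂μ = α + ρ j) {r K : ℕ} (hr : r ≤ K) :
    e2 μ Y r = α * r ^ 2 + ρ 0 * r + 2 * ∑ j ∈ range K, ((r - (j + 1) : ℕ) : ℝ) * ρ (j + 1) := by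
  induction r with
  | zero =>
    rw [e2_zero]
    simp
  | succ r ih =>
    rw [e2_succ hY, ih (by omega)]
    have h1 : ∫ ω, Y r ω * Y r ω ∂μ = α + ρ 0 := h r 0
    have h2 : ∑ i ∈ range r, ∫ ω, Y i ω * Y r ω ∂μ = r * α + ∑ j ∈ range r, ρ (j + 1) := by
      have h3 : ∀ i ∈ range r, ∫ ω, Y i ω * Y r ω ∂μ = α + ρ (r - i) := by
        intro i hi
        have := h i (r - i)
        rwa [Nat.add_sub_cancel' (Finset.mem_range.1 hi).le] at this
      rw [Finset.sum_congr rfl h3, Finset.sum_add_distrib, Finset.sum_const, Finset.card_range,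
        nsmul_eq_mul, ← Finset.sum_range_reflect]
      congr 1
      refine Finset.sum_congr rfl fun i hi => ?_
      have := Finset.mem_range.1 hi
      congr 1
      omega
    have h3 : ∑ j ∈ range K, ((r + 1 - (j + 1) : ℕ) : ℝ) * ρ (j + 1) =
        ∑ j ∈ range K, ((r - (j + 1) : ℕ) : ℝ) * ρ (j + 1) + ∑ j ∈ range r, ρ (j + 1) := by
      have h4 : ∑ j ∈ range r, ρ (j + 1) = ∑ j ∈ range K, if j < r then ρ (j + 1) else 0 := by
        rw [← Finset.sum_filter]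
        congr 1
        ext j
        simp only [Finset.mem_range, Finset.mem_filter]
        omega
      rw [h4, ← Finset.sum_add_distrib]
      refine Finset.sum_congr rfl fun j _ => ?_
      split_ifs with hj
      · have : r + 1 - (j + 1) = (r - (j + 1)) + 1 := by omega
        rw [this]
        push_cast
        ring
      · have h5 : r + 1 - (j + 1) = 0 := by omega
        have h6 : r - (j + 1) = 0 := by omega
        rw [h5, h6]
        simp
    rw [h1, h2, h3]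
    push_cast
    ring

omit [IsProbabilityMeasure μ] in
/-- summable weighted correlations give quadratic second moments up to a bounded error -/
lemma e2_quad {Y : ℕ → Ω → ℝ} (hY : ∀ j, MemLp (Y j) 2 μ) {α : ℝ} {ρ : ℕ → ℝ}
    (h : ∀ i j, ∫ ω, Y i ω * Y (i + j) ω ∂μ = α + ρ j) (hs : Summable fun j : ℕ => j * |ρ j|) :
    ∃ β B : ℝ, ∀ r : ℕ, |e2 μ Y r - (α * r ^ 2 + β * r)| ≤ B := by
  have hs1 : Summable fun j : ℕ => ((j + 1 : ℕ) : ℝ) * |ρ (j + 1)| :=
    (summable_nat_add_iff (f := fun j : ℕ => (j : ℝ) * |ρ j|) 1).2 hs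
  have hs2 : Summable fun j : ℕ => ρ (j + 1) := by
    refine Summable.of_norm_bounded hs1 fun j => ?_
    rw [Real.norm_eq_abs]
    have : (1 : ℝ) ≤ ((j + 1 : ℕ) : ℝ) := by
      push_cast
      linarith [Nat.cast_nonneg (α := ℝ) j]
    nlinarith [abs_nonneg (ρ (j + 1))]
  refine ⟨ρ 0 + 2 * ∑' j, ρ (j + 1), 2 * ∑' j : ℕ, ((j + 1 : ℕ) : ℝ) * |ρ (j + 1)|, fun r => ?_⟩
  have hlim : Tendsto (fun K => |e2 μ Y r - (α * r ^ 2 + (ρ 0 + 2 * ∑ j ∈ range K, ρ (j + 1)) * r)|)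
      atTop (𝓝 |e2 μ Y r - (α * r ^ 2 + (ρ 0 + 2 * ∑' j, ρ (j + 1)) * r)|) := by
    have h1 := hs2.hasSum.tendsto_sum_nat
    exact ((tendsto_const_nhds.sub (tendsto_const_nhds.add
      ((tendsto_const_nhds.add (h1.const_mul 2)).mul_const _)))).abs
  refine le_of_tendsto hlim ?_
  filter_upwards [eventually_ge_atTop r] with K hK
  rw [e2_cov hY h hK]
  have e : α * r ^ 2 + ρ 0 * r + 2 * ∑ j ∈ range K, ((r - (j + 1) : ℕ) : ℝ) * ρ (j + 1) -
      (α * r ^ 2 + (ρ 0 + 2 * ∑ j ∈ range K, ρ (j + 1)) * r) =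
      2 * ∑ j ∈ range K, (((r - (j + 1) : ℕ) : ℝ) - r) * ρ (j + 1) := by
    simp_rw [sub_mul]
    rw [Finset.sum_sub_distrib, ← Finset.mul_sum]
    ring
  rw [e, abs_mul, abs_two]
  apply mul_le_mul_of_nonneg_left _ (by norm_num)
  calc |∑ j ∈ range K, (((r - (j + 1) : ℕ) : ℝ) - r) * ρ (j + 1)| ≤
        ∑ j ∈ range K, |(((r - (j + 1) : ℕ) : ℝ) - r) * ρ (j + 1)| := Finset.abs_sum_le_sum_abs _ _
    _ ≤ ∑ j ∈ range K, ((j + 1 : ℕ) : ℝ) * |ρ (j + 1)| := by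
        refine Finset.sum_le_sum fun j _ => ?_
        rw [abs_mul]
        apply mul_le_mul_of_nonneg_right _ (abs_nonneg _)
        have h1 : r ≤ (r - (j + 1)) + (j + 1) := by omega
        have h2 : r - (j + 1) ≤ r := by omega
        have h3 : (r : ℝ) ≤ ((r - (j + 1) : ℕ) : ℝ) + ((j + 1 : ℕ) : ℝ) := by exact_mod_cast h1
        have h4 : ((r - (j + 1) : ℕ) : ℝ) ≤ r := by exact_mod_cast h2
        rw [abs_le]
        constructor <;> linarith [Nat.cast_nonneg (α := ℝ) (j + 1)]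
    _ ≤ _ := hs1.sum_le_tsum _ fun j _ => by positivity

variable {l : Filter ℕ} [l.NeBot] {a : ℕ → ℝ}

/-- **processes with summable weighted correlations** -/
theorem no_cov (hRH : RiemannHypothesis) (hl : l ≤ atTop) (ha : Near l a del) (X : ℕ → Ω → ℝ)
    (hX : ∀ j, MemLp (X j) 2 μ) (M : ℝ) (ρ : ℕ → ℝ) (hM : ∀ j, ∫ ω, X j ω ∂μ = M)
    (hρ : ∀ i j, ∫ ω, X i ω * X (i + j) ω ∂μ = M ^ 2 + ρ j)
    (hs : Summable fun j : ℕ => j * |ρ j|) : ¬ Law l a (plaw μ X) := by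
  intro hlaw
  have hY : ∀ j, MemLp (fun ω => X j ω - 1) 2 μ := fun j => (hX j).sub (memLp_const 1)
  have h : ∀ i j, ∫ ω, (X i ω - 1) * (X (i + j) ω - 1) ∂μ = (M - 1) ^ 2 + ρ j := by
    intro i j
    have e : ∀ ω, (X i ω - 1) * (X (i + j) ω - 1) = (X i ω * X (i + j) ω - X i ω) -
        (X (i + j) ω - 1) := fun ω => by ring
    simp_rw [e]
    have i1 : Integrable (fun ω => X i ω * X (i + j) ω) μ := (hX i).integrable_mul (hX _)
    have i2 : ∀ j, Integrable (X j) μ := fun j => (hX j).integrable (by norm_num)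
    have i3 : Integrable (fun ω => X i ω * X (i + j) ω - X i ω) μ := i1.sub (i2 i)
    have i4 : Integrable (fun ω => X (i + j) ω - 1) μ := (i2 _).sub (integrable_const _)
    have i5 : Integrable (fun _ : Ω => (1 : ℝ)) μ := integrable_const _
    rw [integral_sub i3 i4, integral_sub i1 (i2 i), integral_sub (i2 _) i5, hρ, hM, hM]
    simp
    ring
  obtain ⟨β, B, h1⟩ := e2_quad hY h hs
  refine no_quad hRH hl ha (plaw_prob hX) hlaw (α := (M - 1) ^ 2) (β := β) (B := B) fun k => ?_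
  rw [plaw_sq hX]
  exact h1 (k + 1)

/-- **orthogonal differences plus a coboundary** -/
theorem no_mart (hRH : RiemannHypothesis) (hl : l ≤ atTop) (ha : Near l a del)
    (D Z : ℕ → Ω → ℝ) (hD : ∀ j, MemLp (D j) 2 μ) (hZ : ∀ j, MemLp (Z j) 2 μ) (M s B : ℝ)
    (hD0 : ∀ j, ∫ ω, D j ω ∂μ = 0) (hD1 : ∀ i j, i ≠ j → ∫ ω, D i ω * D j ω ∂μ = 0)
    (hD2 : ∀ j, ∫ ω, D j ω * D j ω ∂μ = s) (hZ2 : ∀ j, ∫ ω, Z j ω * Z j ω ∂μ ≤ B) :
    ¬ Law l a (plaw μ fun j ω => M + D j ω + (Z j ω - Z (j + 1) ω)) := by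
  intro hlaw
  have hX : ∀ j, MemLp (fun ω => M + D j ω + (Z j ω - Z (j + 1) ω)) 2 μ := fun j =>
    ((memLp_const M).add (hD j)).add ((hZ j).sub (hZ (j + 1)))
  obtain ⟨c, C, hc, hC, hv⟩ := var_lim hRH
  have hv1 := fun k => (hv l hl a ha _ (plaw_prob hX) hlaw k).2.1
  have hv2 := fun k => (hv l hl a ha _ (plaw_prob hX) hlaw k).2.2
  simp_rw [plaw_sq hX] at hv1 hv2
  -- the orthogonal part
  have hs0 : 0 ≤ s := by
    rw [← hD2 0]
    exact integral_nonneg fun ω => mul_self_nonneg _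
  have hY : ∀ j, MemLp (fun ω => (M - 1) + D j ω) 2 μ := fun j => (memLp_const (M - 1)).add (hD j)
  have hYc : ∀ i j, ∫ ω, ((M - 1) + D i ω) * ((M - 1) + D (i + j) ω) ∂μ =
      (M - 1) ^ 2 + if j = 0 then s else 0 := by
    intro i j
    have e : ∀ ω, ((M - 1) + D i ω) * ((M - 1) + D (i + j) ω) =
        ((M - 1) ^ 2 + (M - 1) * (D i ω + D (i + j) ω)) + D i ω * D (i + j) ω := fun ω => by ring
    simp_rw [e]
    have i1 : Integrable (fun ω => D i ω * D (i + j) ω) μ := (hD i).integrable_mul (hD _)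
    have i2 : ∀ j, Integrable (D j) μ := fun j => (hD j).integrable (by norm_num)
    have i3 : Integrable (fun ω => (M - 1) * (D i ω + D (i + j) ω)) μ :=
      ((i2 i).add (i2 (i + j))).const_mul (M - 1)
    have i5 : Integrable (fun _ : Ω => (M - 1) ^ 2) μ := integrable_const _
    have i4 : Integrable (fun ω => (M - 1) ^ 2 + (M - 1) * (D i ω + D (i + j) ω)) μ := i5.add i3
    rw [integral_add i4 i1, integral_add i5 i3, integral_const_mul, integral_add (i2 i) (i2 _), hD0,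
      hD0]
    have : ∫ ω, D i ω * D (i + j) ω ∂μ = if j = 0 then s else 0 := by
      split_ifs with hj
      · rw [hj, add_zero]
        exact hD2 i
      · exact hD1 i (i + j) (by omega)
    rw [this]
    simp
  have hsq : ∀ r : ℕ, e2 μ (fun j ω => (M - 1) + D j ω) r = (M - 1) ^ 2 * r ^ 2 + s * r := by
    intro r
    rw [e2_cov hY hYc (le_refl r)]
    simp
  -- the coboundary
  have hcob : ∀ r : ℕ, MemLp (fun ω => Z 0 ω - Z r ω) 2 μ ∧
      ∫ ω, (Z 0 ω - Z r ω) ^ 2 ∂μ ≤ 4 * B := by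
    intro r
    refine ⟨(hZ 0).sub (hZ r), ?_⟩
    have i1 : ∀ j, Integrable (fun ω => Z j ω * Z j ω) μ := fun j => (hZ j).integrable_mul (hZ j)
    calc ∫ ω, (Z 0 ω - Z r ω) ^ 2 ∂μ ≤ ∫ ω, (2 * (Z 0 ω * Z 0 ω) + 2 * (Z r ω * Z r ω)) ∂μ := by
          refine integral_mono ((hZ 0).sub (hZ r)).integrable_sq
            (((i1 0).const_mul 2).add ((i1 r).const_mul 2)) fun ω => ?_
          show (Z 0 ω - Z r ω) ^ 2 ≤ 2 * (Z 0 ω * Z 0 ω) + 2 * (Z r ω * Z r ω)
          nlinarith [sq_nonneg (Z 0 ω + Z r ω)]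
      _ = 2 * ∫ ω, Z 0 ω * Z 0 ω ∂μ + 2 * ∫ ω, Z r ω * Z r ω ∂μ := by
          rw [integral_add ((i1 0).const_mul 2) ((i1 r).const_mul 2), integral_const_mul,
            integral_const_mul]
      _ ≤ 4 * B := by linarith [hZ2 0, hZ2 r]
  have hsum : ∀ (r : ℕ) (ω : Ω), ∑ j ∈ range r, (M + D j ω + (Z j ω - Z (j + 1) ω) - 1) =
      ∑ j ∈ range r, ((M - 1) + D j ω) + (Z 0 ω - Z r ω) := by
    intro r ω
    induction r with
    | zero => simp
    | succ r ih =>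
      rw [Finset.sum_range_succ, ih, Finset.sum_range_succ]
      ring
  have hS : ∀ r, MemLp (fun ω => ∑ j ∈ range r, ((M - 1) + D j ω)) 2 μ := fun r =>
    memLp_finsetSum _ fun j _ => hY j
  -- lower bound
  have hlow : ∀ r : ℕ, ((M - 1) ^ 2 * r ^ 2 + s * r) / 2 - 4 * B ≤
      ∫ ω, (∑ j ∈ range r, (M + D j ω + (Z j ω - Z (j + 1) ω) - 1)) ^ 2 ∂μ := by
    intro r
    rw [← hsq r]
    unfold e2
    have i1 := (hS r).integrable_sq
    have i2 := (hcob r).1.integrable_sq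
    have i3 := ((hS r).add (hcob r).1).integrable_sq
    have h1 : ∫ ω, ((∑ j ∈ range r, ((M - 1) + D j ω)) ^ 2 / 2 - (Z 0 ω - Z r ω) ^ 2) ∂μ ≤
        ∫ ω, (∑ j ∈ range r, (M + D j ω + (Z j ω - Z (j + 1) ω) - 1)) ^ 2 ∂μ := by
      simp_rw [hsum]
      refine integral_mono ((i1.div_const 2).sub i2) i3 fun ω => ?_
      show (∑ j ∈ range r, ((M - 1) + D j ω)) ^ 2 / 2 - (Z 0 ω - Z r ω) ^ 2 ≤
        (∑ j ∈ range r, ((M - 1) + D j ω) + (Z 0 ω - Z r ω)) ^ 2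
      nlinarith [sq_nonneg (∑ j ∈ range r, ((M - 1) + D j ω) + 2 * (Z 0 ω - Z r ω))]
    rw [integral_sub (i1.div_const 2) i2, integral_div] at h1
    linarith [(hcob r).2]
  have hup : ∀ r : ℕ, ∫ ω, (∑ j ∈ range r, (M + D j ω + (Z j ω - Z (j + 1) ω) - 1)) ^ 2 ∂μ ≤
      2 * ((M - 1) ^ 2 * r ^ 2 + s * r) + 8 * B := by
    intro r
    rw [← hsq r]
    unfold e2
    have i1 := (hS r).integrable_sq
    have i2 := (hcob r).1.integrable_sq
    have i3 := ((hS r).add (hcob r).1).integrable_sq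
    have h1 : ∫ ω, (∑ j ∈ range r, (M + D j ω + (Z j ω - Z (j + 1) ω) - 1)) ^ 2 ∂μ ≤
        ∫ ω, (2 * (∑ j ∈ range r, ((M - 1) + D j ω)) ^ 2 + 2 * (Z 0 ω - Z r ω) ^ 2) ∂μ := by
      simp_rw [hsum]
      refine integral_mono i3 ((i1.const_mul 2).add (i2.const_mul 2)) fun ω => ?_
      show (∑ j ∈ range r, ((M - 1) + D j ω) + (Z 0 ω - Z r ω)) ^ 2 ≤
        2 * (∑ j ∈ range r, ((M - 1) + D j ω)) ^ 2 + 2 * (Z 0 ω - Z r ω) ^ 2
      nlinarith [sq_nonneg (∑ j ∈ range r, ((M - 1) + D j ω) - (Z 0 ω - Z r ω))]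
    rw [integral_add (i1.const_mul 2) (i2.const_mul 2), integral_const_mul, integral_const_mul] at h1
    linarith [(hcob r).2]
  -- both coefficients vanish
  have hz : ∀ t : ℝ, 0 ≤ t → (∀ r : ℕ, t * r / 2 - 4 * B ≤ C * (1 + Real.log r) ∨ r = 0) → t = 0 := by
    intro t ht hr
    by_contra hne
    have htp : 0 < t := lt_of_le_of_ne ht (Ne.symm hne)
    have h1 := (log_small C).add ((tendsto_natCast_atTop_atTop.comp
      (tendsto_add_atTop_nat 1)).const_div_atTop (4 * B))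
    rw [add_zero] at h1
    obtain ⟨k, hk⟩ := (h1.eventually_lt_const (show (0 : ℝ) < t / 2 by positivity)).exists
    have hk0 : (0 : ℝ) < ((k + 1 : ℕ) : ℝ) := by positivity
    rcases hr (k + 1) with h2 | h2
    · simp only [Function.comp] at hk
      rw [← add_div, div_lt_iff₀ hk0] at hk
      linarith
    · omega
  have hlow' : ∀ r : ℕ, ((M - 1) ^ 2 * r ^ 2 + s * r) / 2 - 4 * B ≤ C * (1 + Real.log r) ∨ r = 0 := by
    intro r
    rcases Nat.eq_zero_or_pos r with h0 | h0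
    · exact Or.inr h0
    · left
      obtain ⟨k, rfl⟩ : ∃ k, r = k + 1 := ⟨r - 1, by omega⟩
      exact (hlow (k + 1)).trans (hv2 k)
  have hs1 : s = 0 := hz s hs0 fun r => (hlow' r).imp (fun h => by
    have : 0 ≤ (M - 1) ^ 2 * (r : ℝ) ^ 2 := by positivity
    linarith) id
  have hM1 : (M - 1) ^ 2 = 0 := hz _ (sq_nonneg _) fun r => (hlow' r).imp (fun h => by
    have h1 : (M - 1) ^ 2 * (r : ℝ) ≤ (M - 1) ^ 2 * (r : ℝ) ^ 2 := by
      apply mul_le_mul_of_nonneg_left _ (sq_nonneg _)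
      rcases Nat.eq_zero_or_pos r with h0 | h0
      · subst h0; simp
      · have : (1 : ℝ) ≤ r := by exact_mod_cast h0
        nlinarith
    have h2 : 0 ≤ s * r := by positivity
    linarith) id
  obtain ⟨k, hk⟩ := log_big hc (8 * B)
  have h1 := hup (k + 1)
  rw [hs1, hM1] at h1
  have h2 := hv1 k
  linarith

end Pool.Agent.Q31.HM
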